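import Pool.Agent.Q41.SP.Stm4

/-! Project SP (helper41), job N16 (helper129): roots of a local model are mapped near to roots. -/

set_option autoImplicit false

namespace Pool.Agent.Q129.SP.Clo

open Finset Polynomial
open Pool.Agent.Q41.SU (wr)
open Pool.Agent.Q41.SP

universe u

section hcrs
variable {A : Type*} [CommRing A]

/-- the homogenisation as an additive map -/
noncomputable def hcrH (d : ℕ) (u v : A[X]) : A[X] →+ A[X] where
  toFun g := hcr d g u v
  map_zero' := by simp [hcr]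
  map_add' f g := by
    unfold hcr
    rw [← sum_add_distrib]
    refine sum_congr rfl fun i _ => ?_
    rw [coeff_add, C_add]
    ring

theorem hcrH_apply (d : ℕ) (u v g : A[X]) : hcrH d u v g = hcr d g u v := rfl

theorem hcr_monomial {d i : ℕ} (hi : i ≤ d) (a : A) (u v : A[X]) :
    hcr d (monomial i a) u v = C a * u ^ i * v ^ (d - i) := by
  unfold hcr
  rw [sum_eq_single i]
  · rw [coeff_monomial, if_pos rfl]
  · intro j _ hj
    rw [coeff_monomial, if_neg hj.symm, C_0, zero_mul, zero_mul]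
  · intro h
    exact absurd (mem_range.2 (Nat.lt_succ_of_le hi)) h

theorem hcr_mul {d e : ℕ} {f g : A[X]} (hf : f.natDegree ≤ d) (hg : g.natDegree ≤ e) (u v : A[X]) :
    hcr (d + e) (f * g) u v = hcr d f u v * hcr e g u v := by
  have h1 := as_sum_range' f (d + 1) (Nat.lt_succ_of_le hf)
  have h2 := as_sum_range' g (e + 1) (Nat.lt_succ_of_le hg)
  have h3 : f * g = ∑ i ∈ range (d + 1), ∑ j ∈ range (e + 1), monomial (i + j) (f.coeff i * g.coeff j) := by
    nth_rewrite 1 [h1]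
    nth_rewrite 1 [h2]
    rw [sum_mul_sum]
    refine sum_congr rfl fun i _ => sum_congr rfl fun j _ => ?_
    rw [monomial_mul_monomial]
  have h4 : hcr d f u v = ∑ i ∈ range (d + 1), C (f.coeff i) * u ^ i * v ^ (d - i) := rfl
  have h5 : hcr e g u v = ∑ i ∈ range (e + 1), C (g.coeff i) * u ^ i * v ^ (e - i) := rfl
  rw [h3, h4, h5, ← hcrH_apply, map_sum, sum_mul_sum]
  refine sum_congr rfl fun i hi => ?_
  rw [map_sum]
  refine sum_congr rfl fun j hj => ?_
  rw [mem_range] at hi hj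
  rw [hcrH_apply, hcr_monomial (by omega), show d + e - (i + j) = (d - i) + (e - j) by omega, pow_add,
    pow_add, C_mul]
  ring

theorem hcr_dvd {r : A} {g : A[X]} (h : C r ∣ g) (d : ℕ) (u v : A[X]) : C r ∣ hcr d g u v := by
  rw [C_dvd_iff_dvd_coeff] at h
  unfold hcr
  refine dvd_sum fun i _ => ?_
  exact ((_root_.map_dvd (C : A →+* A[X]) (h i)).mul_right _).mul_right _

end hcrs

/-- division by a polynomial which is not monic -/
theorem pseudo {S : Type*} [CommRing S] {β : ℕ} (hβ : 1 ≤ β) {Hp : S[X]} (hH : Hp.natDegree ≤ β) :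
    ∀ (n : ℕ) (F : S[X]), F.natDegree ≤ n →
      ∃ (e : ℕ) (Q R : S[X]), C (Hp.coeff β) ^ e * F = Q * Hp + R ∧ R.natDegree < β := by
  intro n
  induction n using Nat.strong_induction_on with
  | _ n ih =>
    intro F hF
    by_cases hn : n < β
    · exact ⟨0, 0, F, by rw [pow_zero, one_mul, zero_mul, zero_add], by omega⟩
    · obtain ⟨m, rfl⟩ : ∃ m, n = m + β := ⟨n - β, by omega⟩
      have h1 : (C (Hp.coeff β) * F - C (F.coeff (m + β)) * X ^ m * Hp).natDegree ≤ m + β - 1 := by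
        rw [natDegree_le_iff_coeff_eq_zero]
        intro k hk
        rw [coeff_sub, coeff_C_mul, mul_assoc, coeff_C_mul]
        rcases Nat.lt_or_ge (m + β) k with hk2 | hk2
        · rw [coeff_eq_zero_of_natDegree_lt (lt_of_le_of_lt hF hk2), mul_zero, coeff_X_pow_mul',
            if_pos (by omega), coeff_eq_zero_of_natDegree_lt (p := Hp) (by omega), mul_zero, sub_zero]
        · have hk3 : k = m + β := by omega
          rw [hk3, coeff_X_pow_mul', if_pos (by omega), Nat.add_sub_cancel_left]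
          ring
      obtain ⟨e, Q, R, h2, h3⟩ := ih (m + β - 1) (by omega) _ h1
      refine ⟨e + 1, Q + C (Hp.coeff β) ^ e * (C (F.coeff (m + β)) * X ^ m), R, ?_, h3⟩
      linear_combination h2

theorem comb1 {T : Type*} [CommRing T] {r cA cg ch ct cq Qt G H' N N2 : T} (d1 : r ∣ ch * G - cg * H')
    (d3 : r ∣ cA * N - Qt * G) (d4 : r ∣ ct * N - cq * N2) :
    r ∣ (cA * cq * ch) * N2 - (ct * Qt * cg) * H' := by
  have e1 : (cA * cq * ch) * N2 - (ct * Qt * cg) * H' = ct * Qt * (ch * G - cg * H') +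
      ch * ct * (cA * N - Qt * G) - cA * ch * (ct * N - cq * N2) := by ring
  rw [e1]
  exact dvd_sub (dvd_add (d1.mul_left _) (d3.mul_left _)) (d4.mul_left _)

theorem comb2 {T : Type*} [CommRing T] {r c N2 Q₃ H' R₃ Eo Q₂ : T} (e1 : c * N2 = Q₃ * H' + R₃)
    (d : r ∣ Eo * N2 - Q₂ * H') : r ∣ (c * Q₂ - Eo * Q₃) * H' - Eo * R₃ := by
  have e4 : (c * Q₂ - Eo * Q₃) * H' - Eo * R₃ = -(c * (Eo * N2 - Q₂ * H')) := by
    linear_combination Eo * e1
  rw [e4, dvd_neg]
  exact d.mul_left _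

theorem comb3 {T : Type*} [CommRing T] {r U H' K : T} (e5 : r ∣ U) (e3 : r ∣ U * H' - K) : r ∣ K := by
  have e7 := dvd_sub (e5.mul_right H') e3
  have e8 : U * H' - (U * H' - K) = K := by ring
  rwa [e8] at e7

/-- comparison of the degrees modulo `r` -/
theorem compare {S : Type*} [CommRing S] {β : ℕ} {r : S} {Hp U R : S[X]} (hH : Hp.natDegree ≤ β)
    (hR : R.natDegree < β) (hd : C r ∣ U * Hp - R) (hz : ∀ f, r ∣ f * Hp.coeff β → r ∣ f) : C r ∣ U := by
  rw [C_dvd_iff_dvd_coeff] at hd ⊢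
  have key : ∀ m n : ℕ, U.natDegree < n + m → r ∣ U.coeff n := by
    intro m
    induction m with
    | zero =>
      intro n hn
      rw [coeff_eq_zero_of_natDegree_lt (by omega)]
      exact dvd_zero _
    | succ m ih =>
      intro n hn
      apply hz
      have h1 := hd (n + β)
      rw [coeff_sub, coeff_eq_zero_of_natDegree_lt (p := R) (by omega), sub_zero, coeff_mul] at h1
      have h2 : (n, β) ∈ Finset.HasAntidiagonal.antidiagonal (n + β) :=
        Finset.HasAntidiagonal.mem_antidiagonal.2 rfl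
      rw [← Finset.add_sum_erase _ _ h2] at h1
      refine (dvd_add_left (Finset.dvd_sum fun x hx => ?_)).1 h1
      obtain ⟨h3, h4⟩ := Finset.mem_erase.1 hx
      have h5 := Finset.HasAntidiagonal.mem_antidiagonal.1 h4
      rcases Nat.lt_trichotomy x.1 n with h6 | h6 | h6
      · rw [coeff_eq_zero_of_natDegree_lt (p := Hp) (n := x.2) (by omega), mul_zero]
        exact dvd_zero _
      · exfalso
        apply h3
        ext
        · exact h6
        · show x.2 = β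
          omega
      · exact (ih x.1 (by omega)).mul_right _
  intro n
  exact key (U.natDegree + 1) n (by omega)

section norms
variable {L Λ : Type u} [Field L] [NormedField Λ] [IsUltrametricDist Λ] {ψ : PowerSeries L →+* Λ}

theorem ps_le (hψ : IsPs ψ) (f : PowerSeries L) : ‖ψ f‖ ≤ 1 := by
  have h := (hψ f 0).2 (by rw [pow_zero]; exact one_dvd _)
  simpa using h

theorem ps_unit (hψ : IsPs ψ) {f : PowerSeries L} (hf : PowerSeries.constantCoeff f ≠ 0) :
    ‖ψ f‖ = 1 := by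
  have h1 := ps_le hψ f
  have h2 := ps_le hψ f⁻¹
  have h3 : ‖ψ f‖ * ‖ψ f⁻¹‖ = 1 := by
    rw [← norm_mul, ← map_mul, PowerSeries.mul_inv_cancel f hf, map_one, norm_one]
  have h4 := norm_nonneg (ψ f)
  nlinarith

/-- values of integral polynomials -/
theorem eval_le {S : Type*} [CommRing S] {f : S →+* Λ} (hf : ∀ s, ‖f s‖ ≤ 1) {w : Λ} (hw : ‖w‖ ≤ 1)
    (F : S[X]) : ‖F.eval₂ f w‖ ≤ 1 := by
  rw [eval₂_eq_sum_range]
  refine IsUltrametricDist.norm_sum_le_of_forall_le_of_nonneg zero_le_one fun i _ => ?_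
  rw [norm_mul, norm_pow]
  exact mul_le_one₀ (hf _) (by positivity) (pow_le_one₀ (norm_nonneg _) hw)

theorem pow_sub_le {w v : Λ} (hw : ‖w‖ ≤ 1) (hv : ‖v‖ ≤ 1) (n : ℕ) : ‖w ^ n - v ^ n‖ ≤ ‖w - v‖ := by
  rw [← (Commute.all w v).mul_geom_sum₂ n, norm_mul]
  refine mul_le_of_le_one_right (norm_nonneg _) ?_
  refine IsUltrametricDist.norm_sum_le_of_forall_le_of_nonneg zero_le_one fun i _ => ?_
  rw [norm_mul, norm_pow, norm_pow]
  exact mul_le_one₀ (pow_le_one₀ (norm_nonneg _) hw) (by positivity) (pow_le_one₀ (norm_nonneg _) hv)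

theorem eval_sub_le {S : Type*} [CommRing S] {f : S →+* Λ} (hf : ∀ s, ‖f s‖ ≤ 1) {w v : Λ}
    (hw : ‖w‖ ≤ 1) (hv : ‖v‖ ≤ 1) (F : S[X]) : ‖F.eval₂ f w - F.eval₂ f v‖ ≤ ‖w - v‖ := by
  rw [eval₂_eq_sum_range, eval₂_eq_sum_range, ← Finset.sum_sub_distrib]
  refine IsUltrametricDist.norm_sum_le_of_forall_le_of_nonneg (norm_nonneg _) fun i _ => ?_
  rw [← mul_sub, norm_mul]
  calc ‖f (F.coeff i)‖ * ‖w ^ i - v ^ i‖ ≤ 1 * ‖w - v‖ :=
        mul_le_mul (hf _) (pow_sub_le hw hv i) (norm_nonneg _) zero_le_one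
    _ = ‖w - v‖ := one_mul _

end norms

/-- the homogenisation is not zero -/
theorem hcr_ne {L : Type u} [Field L] [Infinite L] {P Q a : L[X]} {H : ℕ} (hQ : Q ≠ 0) (hw : wr P Q ≠ 0)
    (ha : a ≠ 0) (haH : a.natDegree ≤ H) : hcr H a P Q ≠ 0 := by
  classical
  intro h
  have hz : (∏ ρ ∈ a.roots.toFinset, (P - C ρ * Q)) * Q = 0 := by
    apply Polynomial.funext
    intro x
    rw [eval_mul, eval_zero]
    by_cases hq : Q.eval x = 0
    · rw [hq, mul_zero]
    · have h1 : (hcr H a P Q).eval x = Q.eval x ^ H * a.eval (P.eval x / Q.eval x) := by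
        unfold hcr
        rw [eval_finsetSum, eval_eq_sum_range' (Nat.lt_succ_of_le haH), Finset.mul_sum]
        refine Finset.sum_congr rfl fun i hi => ?_
        rw [Finset.mem_range] at hi
        rw [eval_mul, eval_mul, eval_C, eval_pow, eval_pow, div_pow,
          show Q.eval x ^ H = Q.eval x ^ i * Q.eval x ^ (H - i) by rw [← pow_add]; congr 1; omega]
        field_simp
      rw [h, eval_zero] at h1
      have h2 : a.eval (P.eval x / Q.eval x) = 0 :=
        (mul_eq_zero.1 h1.symm).resolve_left (pow_ne_zero _ hq)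
      have h3 : P.eval x / Q.eval x ∈ a.roots.toFinset := by
        rw [Multiset.mem_toFinset, mem_roots ha]
        exact h2
      rw [eval_prod, Finset.prod_eq_zero h3, zero_mul]
      rw [eval_sub, eval_mul, eval_C, div_mul_cancel₀ _ hq, sub_self]
  rcases mul_eq_zero.1 hz with h1 | h1
  · obtain ⟨ρ, -, h2⟩ := Finset.prod_eq_zero_iff.1 h1
    apply hw
    have h3 : P = C ρ * Q := sub_eq_zero.1 h2
    unfold wr
    rw [h3, derivative_C_mul]
    ring
  · exact hQ h1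

/-- divisibility -/
theorem dv_iff {E : Type*} [Field E] {M : ℕ} {G : (PowerSeries E)[X][X]} :
    Dv M G ↔ (C (C (PowerSeries.X ^ M)) : (PowerSeries E)[X][X]) ∣ G := by
  rw [C_dvd_iff_dvd_coeff]
  unfold Dv
  exact forall_congr' fun i => (C_dvd_iff_dvd_coeff _ _).symm

/-- a polynomial with nonzero reduction is not a zero divisor modulo a power of `δ` -/
theorem nzd {E : Type*} [Field E] {c : (PowerSeries E)[X]} (hc : c.map PowerSeries.constantCoeff ≠ 0)
    (M : ℕ) (f : (PowerSeries E)[X]) (h : C (PowerSeries.X ^ M) ∣ f * c) : C (PowerSeries.X ^ M) ∣ f := by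
  have hp : Prime (C (PowerSeries.X : PowerSeries E)) := prime_C_iff.2 PowerSeries.X_prime
  rw [C_pow] at h ⊢
  refine hp.pow_dvd_of_dvd_mul_right M (fun h1 => hc ?_) h
  rw [C_dvd_iff_dvd_coeff] at h1
  ext i
  rw [coeff_map, coeff_zero]
  exact PowerSeries.X_dvd_iff.1 (h1 i)

/-- **(N16)** -/
theorem cloP : S_cloP.{u} := by
  intro l r β H M' L Λ _ _ _ _ _ _ _ ψ P Q P' Q' G Qt A a hψ hco hwr hP' hQ' hG ha hred hA hN y hQy H' H'' hL1
    hL2 w hw0 hw1
  classical
  obtain ⟨hG1, hG2⟩ := hG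
  have hQ0 : Q ≠ 0 := by
    rintro rfl
    exact hQy eval_zero
  -- the leading coefficients
  obtain ⟨g, hg⟩ : ∃ g, g = G.coeff β := ⟨_, rfl⟩
  obtain ⟨h1, hh1⟩ : ∃ h1, h1 = H'.coeff β := ⟨_, rfl⟩
  obtain ⟨h2, hh2⟩ : ∃ h2, h2 = H''.coeff β := ⟨_, rfl⟩
  have d1 := dv_iff.1 hL1.dv
  have d2 := dv_iff.1 hL2.dv
  have d3 := dv_iff.1 hN
  have u1 := hL1.unit
  have u2 := hL2.unit
  rw [← hg, ← hh1] at d1
  rw [← hg, ← hh2] at d2
  rw [← hh1] at u1
  rw [← hh2] at u2
  have r1 : h1.map PowerSeries.constantCoeff ≠ 0 := by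
    intro h
    rw [h] at u1
    exact u1 eval_zero
  have hga : g.map PowerSeries.constantCoeff = a := by
    have h := congrArg (fun F : L[X][X] => F.coeff β) hred
    unfold red at h
    simp only [coeff_map, coeff_C_mul] at h
    rw [← hg] at h
    have h3 : ((X - C (X ^ l ^ r) : L[X][X]) ^ β).coeff β = 1 := by
      have h4 := (monic_X_sub_C (X ^ l ^ r : L[X])).pow β
      have h5 : ((X - C (X ^ l ^ r) : L[X][X]) ^ β).natDegree = β := by
        rw [natDegree_pow, natDegree_X_sub_C, mul_one]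
      have h6 := h4.coeff_natDegree
      rwa [h5] at h6
    rw [h3, mul_one] at h
    exact h
  -- the degree of `H''`
  obtain ⟨H₂, hH₂⟩ : ∃ H₂ : ℕ, ∀ i, (H''.coeff i).natDegree ≤ H₂ := by
    refine ⟨∑ i ∈ H''.support, (H''.coeff i).natDegree, fun i => ?_⟩
    by_cases hi : i ∈ H''.support
    · exact Finset.single_le_sum (f := fun i => (H''.coeff i).natDegree) (fun _ _ => Nat.zero_le _) hi
    · rw [notMem_support_iff.1 hi, natDegree_zero]
      exact Nat.zero_le _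
  obtain ⟨u, hu⟩ : ∃ u : (PowerSeries L)[X], u = P.map PowerSeries.C := ⟨_, rfl⟩
  obtain ⟨v, hv⟩ : ∃ v : (PowerSeries L)[X], v = Q.map PowerSeries.C := ⟨_, rfl⟩
  obtain ⟨N, hNd⟩ : ∃ N, N = nv β H P Q P' Q' G := ⟨_, rfl⟩
  obtain ⟨N2, hN2d⟩ : ∃ N2, N2 = nv β H₂ P Q P' Q' H'' := ⟨_, rfl⟩
  obtain ⟨gt1, hgt1⟩ : ∃ gt1, gt1 = hcr H g u v := ⟨_, rfl⟩
  obtain ⟨ht2, hht2⟩ : ∃ ht2, ht2 = hcr H₂ h2 u v := ⟨_, rfl⟩
  rw [← hNd] at d3
  -- the pull-back of the second model
  have d4 : (C (C (PowerSeries.X ^ M')) : (PowerSeries L)[X][X]) ∣ C ht2 * N - C gt1 * N2 := by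
    have e1 : C ht2 * N - C gt1 * N2 = ∑ j ∈ range (β + 1),
        C (hcr (H₂ + H) (h2 * G.coeff j - g * H''.coeff j) u v) * (P'.map C) ^ j * (Q'.map C) ^ (β - j) := by
      rw [hNd, hN2d]
      unfold nv
      rw [Finset.mul_sum, Finset.mul_sum, ← Finset.sum_sub_distrib]
      refine Finset.sum_congr rfl fun j _ => ?_
      have e2 : hcr (H₂ + H) (h2 * G.coeff j - g * H''.coeff j) u v =
          ht2 * hcr H (G.coeff j) u v - gt1 * hcr H₂ (H''.coeff j) u v := by
        rw [← hcrH_apply, map_sub, hcrH_apply, hcrH_apply,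
          hcr_mul (by rw [hh2]; exact hH₂ β) (hG2 j), ← hht2]
        rw [add_comm H₂ H, hcr_mul (by rw [hg]; exact hG2 β) (hH₂ j), ← hgt1]
      rw [e2, ← hu, ← hv, C_sub, C_mul, C_mul]
      ring
    rw [e1]
    refine Finset.dvd_sum fun j _ => ?_
    refine Dvd.dvd.mul_right (Dvd.dvd.mul_right ?_ _) _
    apply _root_.map_dvd (C : (PowerSeries L)[X] →+* (PowerSeries L)[X][X])
    apply hcr_dvd
    rw [C_dvd_iff_dvd_coeff] at d2
    have := d2 j
    rwa [coeff_sub, coeff_C_mul, coeff_C_mul] at this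
  -- the combination
  obtain ⟨E₁, hE₁⟩ : ∃ E₁, E₁ = A * gt1 * h1 := ⟨_, rfl⟩
  obtain ⟨Q₂, hQ₂⟩ : ∃ Q₂, Q₂ = C ht2 * Qt * C g := ⟨_, rfl⟩
  have d5 : (C (C (PowerSeries.X ^ M')) : (PowerSeries L)[X][X]) ∣ C E₁ * N2 - Q₂ * H' := by
    rw [hE₁, hQ₂, C_mul, C_mul]
    exact comb1 (T := (PowerSeries L)[X][X]) d1 d3 d4
  have hE1r : E₁.map PowerSeries.constantCoeff ≠ 0 := by
    rw [hE₁, Polynomial.map_mul, Polynomial.map_mul]
    refine mul_ne_zero (mul_ne_zero hA ?_) r1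
    have e1 : gt1.map PowerSeries.constantCoeff = hcr H a P Q := by
      rw [hgt1]
      unfold hcr
      rw [Polynomial.map_sum]
      refine Finset.sum_congr rfl fun i _ => ?_
      rw [Polynomial.map_mul, Polynomial.map_mul, Polynomial.map_pow, Polynomial.map_pow, map_C, hu, hv,
        Polynomial.map_map, Polynomial.map_map, PowerSeries.constantCoeff_comp_C, Polynomial.map_id,
        Polynomial.map_id, ← hga, coeff_map]
    rw [e1]
    have : Infinite L := inferInstance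
    apply hcr_ne hQ0 hwr ha
    rw [← hga]
    exact natDegree_map_le.trans (by rw [hg]; exact hG2 β)
  -- the evaluation
  obtain ⟨Ev, hEv⟩ : ∃ Ev : (PowerSeries L)[X][X] →+* Λ,
      Ev = eval₂RingHom (eval₂RingHom ψ (ψ (PowerSeries.C y))) w := ⟨_, rfl⟩
  have hEvg : ∀ F, (gt ψ F y).eval w = Ev F := by
    intro F
    unfold gt
    rw [eval_map, hEv]
    rfl
  have hψ1 : ∀ s, ‖ψ s‖ ≤ 1 := ps_le hψ
  have hinner : ∀ s, ‖eval₂RingHom ψ (ψ (PowerSeries.C y)) s‖ ≤ 1 := fun s => by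
    rw [coe_eval₂RingHom]
    exact eval_le hψ1 (hψ1 _) s
  have hvle : ‖ψ (PowerSeries.C y) ^ l ^ r‖ ≤ 1 := by
    rw [norm_pow]
    exact pow_le_one₀ (norm_nonneg _) (hψ1 _)
  have hwle : ‖w‖ ≤ 1 := by
    have e1 : w = (w - ψ (PowerSeries.C y) ^ l ^ r) + ψ (PowerSeries.C y) ^ l ^ r := by ring
    rw [e1]
    exact (IsUltrametricDist.norm_add_le_max _ _).trans (max_le hw1.le hvle)
  have hEv1 : ∀ F, ‖Ev F‖ ≤ 1 := fun F => by
    rw [hEv, coe_eval₂RingHom]
    exact eval_le hinner hwle F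
  have hEvC : ∀ f : (PowerSeries L)[X], Ev (C f) = f.eval₂ ψ (ψ (PowerSeries.C y)) := by
    intro f
    rw [hEv, coe_eval₂RingHom, eval₂_C, coe_eval₂RingHom]
  have hEvd : ∀ F, (C (C (PowerSeries.X ^ M')) : (PowerSeries L)[X][X]) ∣ F → ‖Ev F‖ ≤ Real.exp (-(M' : ℝ)) := by
    rintro F ⟨K, rfl⟩
    rw [map_mul, norm_mul, hEvC, eval₂_C]
    have e1 := (hψ (PowerSeries.X ^ M') M').2 dvd_rfl
    calc ‖ψ (PowerSeries.X ^ M')‖ * ‖Ev K‖ ≤ Real.exp (-(M' : ℝ)) * 1 :=
          mul_le_mul e1 (hEv1 K) (norm_nonneg _) (Real.exp_pos _).le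
      _ = _ := mul_one _
  have hEvunit : ∀ f : (PowerSeries L)[X], (f.map PowerSeries.constantCoeff).eval y ≠ 0 → ‖Ev (C f)‖ = 1 := by
    intro f hf
    have e1 : f.eval₂ ψ (ψ (PowerSeries.C y)) = ψ (f.eval (PowerSeries.C y)) := by
      rw [eval₂_at_apply]
    rw [hEvC, e1]
    apply ps_unit hψ
    have e2 : PowerSeries.constantCoeff (f.eval (PowerSeries.C y)) =
        (f.map PowerSeries.constantCoeff).eval y := by
      rw [eval_map, ← Polynomial.eval₂_at_apply, PowerSeries.constantCoeff_C]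
    rw [e2]
    exact hf
  rw [hEvg] at hw0
  -- `‖N''(y, w)‖` is small
  have hN2 : ‖Ev N2‖ ≤ Real.exp (-(M' : ℝ)) := by
    rcases Nat.eq_zero_or_pos β with hb0 | hb1
    · exfalso
      have e1 : H' = C h1 := by
        have := hL1.deg
        rw [hb0] at this
        rw [hh1, hb0]
        exact eq_C_of_natDegree_le_zero this
      rw [e1] at hw0
      have e2 := hEvunit h1 u1
      rw [hw0, norm_zero] at e2
      exact zero_ne_one e2
    · obtain ⟨e, Q₃, R₃, e1, e2⟩ := pseudo hb1 hL1.deg N2.natDegree N2 le_rfl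
      rw [← hh1] at e1
      have e3 : (C (C (PowerSeries.X ^ M')) : (PowerSeries L)[X][X]) ∣
          (C h1 ^ e * Q₂ - C E₁ * Q₃) * H' - C E₁ * R₃ :=
        comb2 (T := (PowerSeries L)[X][X]) e1 d5
      have e5 : (C (C (PowerSeries.X ^ M')) : (PowerSeries L)[X][X]) ∣ C h1 ^ e * Q₂ - C E₁ * Q₃ := by
        refine compare hL1.deg (lt_of_le_of_lt (natDegree_C_mul_le _ _) e2) e3 fun f hf => ?_
        rw [← hh1] at hf
        exact nzd r1 M' f hf
      have e6 : (C (C (PowerSeries.X ^ M')) : (PowerSeries L)[X][X]) ∣ C E₁ * R₃ :=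
        comb3 (T := (PowerSeries L)[X][X]) e5 e3
      have e9 : (C (C (PowerSeries.X ^ M')) : (PowerSeries L)[X][X]) ∣ R₃ := by
        rw [C_dvd_iff_dvd_coeff] at e6 ⊢
        intro i
        have e10 := e6 i
        rw [coeff_C_mul, mul_comm] at e10
        exact nzd hE1r M' _ e10
      have e11 := congrArg Ev e1
      rw [map_mul, map_add, map_mul, map_pow, hw0, mul_zero, zero_add] at e11
      have e12 := hEvd _ e9
      rw [← e11, norm_mul, norm_pow, hEvunit h1 u1, one_pow, one_mul] at e12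
      exact e12
  -- the value of the denominator
  obtain ⟨qw, hqw⟩ : ∃ qw : Λ, qw = (Q'.map ψ).eval w := ⟨_, rfl⟩
  obtain ⟨pw, hpw⟩ : ∃ pw : Λ, pw = (P'.map ψ).eval w := ⟨_, rfl⟩
  have hq1 : ‖qw‖ = 1 := by
    obtain ⟨K, hK⟩ : C (PowerSeries.X : PowerSeries L) ∣ Q' - (Q.map (iterateFrobenius L l r)).map PowerSeries.C := by
      rw [C_dvd_iff_dvd_coeff]
      intro i
      rw [PowerSeries.X_dvd_iff, coeff_sub, map_sub, ← coeff_map, hQ', coeff_map, coeff_map, coeff_map,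
        PowerSeries.constantCoeff_C, sub_self]
    have e1 : Q' = (Q.map (iterateFrobenius L l r)).map PowerSeries.C + C PowerSeries.X * K := by
      rw [← hK]
      ring
    obtain ⟨F, hF⟩ : ∃ F : (PowerSeries L)[X], F = (Q.map (iterateFrobenius L l r)).map PowerSeries.C := ⟨_, rfl⟩
    rw [← hF] at e1
    obtain ⟨vv, hvv⟩ : ∃ vv : Λ, vv = ψ (PowerSeries.C y) ^ l ^ r := ⟨_, rfl⟩
    rw [← hvv] at hw1 hvle
    have e2 : qw = F.eval₂ ψ vv + ((F.eval₂ ψ w - F.eval₂ ψ vv) + ψ PowerSeries.X * K.eval₂ ψ w) := by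
      rw [hqw, eval_map, e1, eval₂_add, eval₂_mul, eval₂_C]
      ring
    have e3 : F.eval₂ ψ vv = ψ (PowerSeries.C (Q.eval y ^ l ^ r)) := by
      have e4 : vv = ψ (PowerSeries.C (y ^ l ^ r)) := by
        rw [hvv, map_pow, map_pow]
      rw [e4, eval₂_at_apply, hF, eval_map, eval₂_at_apply]
      congr 2
      rw [eval_map, ← iterateFrobenius_def, ← iterateFrobenius_def, eval₂_at_apply]
    have e5 : ‖F.eval₂ ψ vv‖ = 1 := by
      rw [e3]
      apply ps_unit hψ
      rw [PowerSeries.constantCoeff_C]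
      exact pow_ne_zero _ hQy
    have e6 : ‖(F.eval₂ ψ w - F.eval₂ ψ vv) + ψ PowerSeries.X * K.eval₂ ψ w‖ < 1 := by
      refine lt_of_le_of_lt (IsUltrametricDist.norm_add_le_max _ _) (max_lt ?_ ?_)
      · exact lt_of_le_of_lt (eval_sub_le hψ1 hwle hvle F) hw1
      · have e7 := (hψ PowerSeries.X 1).2 (by rw [pow_one])
        rw [norm_mul]
        have e8 : Real.exp (-((1 : ℕ) : ℝ)) < 1 := by
          rw [Real.exp_lt_one_iff]
          norm_num
        have e9 := eval_le hψ1 hwle K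
        calc ‖ψ PowerSeries.X‖ * ‖K.eval₂ ψ w‖ ≤ Real.exp (-((1 : ℕ) : ℝ)) * 1 :=
              mul_le_mul e7 e9 (norm_nonneg _) (Real.exp_pos _).le
          _ < 1 := by rw [mul_one]; exact e8
    rw [e2, IsUltrametricDist.norm_add_eq_max_of_norm_ne_norm (by rw [e5]; exact e6.ne'), e5]
    exact max_eq_left e6.le
  have hq0 : qw ≠ 0 := by
    intro h
    rw [h, norm_zero] at hq1
    exact zero_ne_one hq1
  -- the value of the pull-back
  obtain ⟨Y, hY⟩ : ∃ Y : L, Y = P.eval y / Q.eval y := ⟨_, rfl⟩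
  obtain ⟨qy, hqy⟩ : ∃ qy : Λ, qy = ψ (PowerSeries.C (Q.eval y)) := ⟨_, rfl⟩
  have hqy1 : ‖qy‖ = 1 := by
    rw [hqy]
    apply ps_unit hψ
    rw [PowerSeries.constantCoeff_C]
    exact hQy
  have hPY : ψ (PowerSeries.C (P.eval y)) = ψ (PowerSeries.C Y) * qy := by
    rw [hqy, ← map_mul, ← map_mul, hY, div_mul_cancel₀ _ hQy]
  have hEvu : Ev (C u) = ψ (PowerSeries.C (P.eval y)) := by
    rw [hEvC, eval₂_at_apply, hu, eval_map, eval₂_at_apply]
  have hEvv : Ev (C v) = qy := by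
    rw [hEvC, eval₂_at_apply, hv, eval_map, eval₂_at_apply, hqy]
  have hEvPm : ∀ F : (PowerSeries L)[X], Ev (F.map C) = (F.map ψ).eval w := by
    intro F
    rw [hEv, coe_eval₂RingHom, eval₂_map, eval_map]
    congr 1
    ext s
    rw [RingHom.comp_apply, coe_eval₂RingHom, eval₂_C]
  have hhcr : ∀ f : (PowerSeries L)[X], f.natDegree ≤ H₂ →
      Ev (C (hcr H₂ f u v)) = qy ^ H₂ * f.eval₂ ψ (ψ (PowerSeries.C Y)) := by
    intro f hf
    unfold hcr
    rw [map_sum, map_sum, eval₂_eq_sum_range' ψ (Nat.lt_succ_of_le hf), Finset.mul_sum]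
    refine Finset.sum_congr rfl fun i hi => ?_
    rw [Finset.mem_range] at hi
    rw [C_mul, C_mul, C_pow, C_pow, map_mul, map_mul, map_pow, map_pow, hEvu, hEvv, hPY, hEvC, eval₂_C,
      show qy ^ H₂ = qy ^ i * qy ^ (H₂ - i) by rw [← pow_add]; congr 1; omega]
    ring
  have hfin : Ev N2 = qy ^ H₂ * qw ^ β * (gt ψ H'' Y).eval (pw / qw) := by
    rw [hN2d]
    unfold nv gt
    rw [map_sum, eval_map, eval₂_eq_sum_range' _ (Nat.lt_succ_of_le hL2.deg), Finset.mul_sum]
    refine Finset.sum_congr rfl fun j hj => ?_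
    rw [Finset.mem_range] at hj
    rw [map_mul, map_mul, map_pow, map_pow, hEvPm, hEvPm, ← hpw, ← hqw, ← hu, ← hv, hhcr _ (hH₂ j),
      coe_eval₂RingHom, div_pow,
      show qw ^ β = qw ^ j * qw ^ (β - j) by rw [← pow_add]; congr 1; omega]
    field_simp
  rw [← hY, ← hpw, ← hqw]
  rw [hfin, norm_mul, norm_mul, norm_pow, norm_pow, hq1, hqy1, one_pow, one_pow, one_mul, one_mul] at hN2
  exact hN2

end Pool.Agent.Q129.SP.Clo
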