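import Pool.Agent.Q41.SP.Stm3

/-! Project SP (helper41), job N8 (helper129): descent by differentiation. -/

set_option autoImplicit false

namespace Pool.Agent.Q129.SP

open Finset Polynomial
open Pool.Agent.Q41.SU (cD)
open Pool.Agent.Q41.SP

universe u

section
variable {k E : Type u} [Field k] [Field E] [Algebra k E] (D : Derivation k E E)

theorem cD_coeff (p : E[X]) (i : ℕ) : (cD D p).coeff i = D (p.coeff i) := by
  unfold cD
  rw [finsetSum_coeff]
  simp only [coeff_C_mul, coeff_X_pow, mul_ite, mul_one, mul_zero]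
  rw [Finset.sum_ite_eq (range (p.natDegree + 1)) i]
  split_ifs with h
  · rfl
  · rw [mem_range, not_lt] at h
    rw [coeff_eq_zero_of_natDegree_lt (by omega), map_zero]

theorem cD_add (p q : E[X]) : cD D (p + q) = cD D p + cD D q := by
  ext i
  rw [cD_coeff, coeff_add, coeff_add, map_add, cD_coeff, cD_coeff]

theorem cD_monomial (n : ℕ) (a : E) : cD D (monomial n a) = monomial n (D a) := by
  ext i
  rw [cD_coeff, coeff_monomial, coeff_monomial]
  split_ifs
  · rfl
  · exact map_zero _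

theorem cD_natDegree (p : E[X]) : (cD D p).natDegree ≤ p.natDegree := by
  rw [natDegree_le_iff_coeff_eq_zero]
  intro i hi
  rw [cD_coeff, coeff_eq_zero_of_natDegree_lt hi, map_zero]

/-- the derivation of a value -/
theorem D_eval (p : E[X]) (x : E) :
    D (p.eval x) = (cD D p).eval x + (derivative p).eval x * D x := by
  induction p using Polynomial.induction_on' with
  | add p q hp hq =>
    rw [eval_add, map_add, hp, hq, cD_add, derivative_add, eval_add, eval_add]
    ring
  | monomial n a =>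
    rw [cD_monomial, derivative_monomial, eval_monomial, eval_monomial, eval_monomial, D.leibniz,
      D.leibniz_pow]
    simp only [smul_eq_mul, nsmul_eq_mul]
    ring

/-- division by the greatest common divisor and by the leading coefficient -/
theorem reduce (ρ₁ ρ₂ : E[X]) (h2 : ρ₂ ≠ 0) : ∃ a b c : E[X], IsCoprime a b ∧ b.Monic ∧
    ρ₁ = c * a ∧ ρ₂ = c * b ∧ a.natDegree ≤ ρ₁.natDegree ∧ b.natDegree ≤ ρ₂.natDegree := by
  classical
  have hg0 : EuclideanDomain.gcd ρ₁ ρ₂ ≠ 0 := fun h => h2 (EuclideanDomain.gcd_eq_zero_iff.1 h).2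
  obtain ⟨g, hg⟩ : ∃ g : E[X], g = EuclideanDomain.gcd ρ₁ ρ₂ := ⟨_, rfl⟩
  obtain ⟨a₀, ha₀⟩ : g ∣ ρ₁ := by rw [hg]; exact EuclideanDomain.gcd_dvd_left _ _
  obtain ⟨b₀, hb₀⟩ : g ∣ ρ₂ := by rw [hg]; exact EuclideanDomain.gcd_dvd_right _ _
  rw [← hg] at hg0
  have hb0 : b₀ ≠ 0 := by
    rintro rfl
    exact h2 (by rw [hb₀, mul_zero])
  have hlc : b₀.leadingCoeff ≠ 0 := leadingCoeff_ne_zero.2 hb0
  have hcc : (C b₀.leadingCoeff : E[X]) * C b₀.leadingCoeff⁻¹ = 1 := by
    rw [← C_mul, mul_inv_cancel₀ hlc, C_1]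
  have hco : IsCoprime a₀ b₀ := by
    have h3 := EuclideanDomain.gcd_eq_gcd_ab ρ₁ ρ₂
    rw [← hg] at h3
    refine ⟨EuclideanDomain.gcdA ρ₁ ρ₂, EuclideanDomain.gcdB ρ₁ ρ₂, ?_⟩
    apply mul_left_cancel₀ hg0
    rw [mul_one]
    linear_combination -h3 - (EuclideanDomain.gcdA ρ₁ ρ₂) * ha₀ - (EuclideanDomain.gcdB ρ₁ ρ₂) * hb₀
  refine ⟨C b₀.leadingCoeff⁻¹ * a₀, C b₀.leadingCoeff⁻¹ * b₀, C b₀.leadingCoeff * g, ?_, ?_, ?_, ?_, ?_, ?_⟩
  · obtain ⟨s, t, hst⟩ := hco
    refine ⟨s * C b₀.leadingCoeff, t * C b₀.leadingCoeff, ?_⟩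
    linear_combination (s * a₀ + t * b₀) * hcc + hst
  · rw [Monic, leadingCoeff_mul, leadingCoeff_C, inv_mul_cancel₀ hlc]
  · rw [ha₀]
    linear_combination (-(g * a₀)) * hcc
  · rw [hb₀]
    linear_combination (-(g * b₀)) * hcc
  · rcases eq_or_ne ρ₁ 0 with h | h
    · have h3 : a₀ = 0 := by
        rw [h] at ha₀
        exact (mul_eq_zero.1 ha₀.symm).resolve_left hg0
      rw [h3, mul_zero, natDegree_zero]
      exact Nat.zero_le _
    · refine (natDegree_C_mul_le _ _).trans (natDegree_le_of_dvd ⟨g, ?_⟩ h)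
      rw [ha₀, mul_comm]
  · refine (natDegree_C_mul_le _ _).trans (natDegree_le_of_dvd ⟨g, ?_⟩ h2)
    rw [hb₀, mul_comm]

/-- a polynomial killed by both derivations is an `l`-th power -/
theorem root {l : ℕ} [Fact l.Prime] [CharP E l] (hker : ∀ x, D x = 0 → ∃ y, x = y ^ l) {ρ : E[X]}
    (h1 : derivative ρ = 0) (h2 : cD D ρ = 0) : ∃ η : E[X], ρ = η ^ l := by
  have hl0 : l ≠ 0 := (Fact.out : l.Prime).ne_zero
  have h3 := expand_contract l h1 hl0
  have h4 : ∀ i, ∃ y, (contract l ρ).coeff i = y ^ l := by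
    intro i
    apply hker
    rw [coeff_contract hl0, ← cD_coeff, h2, coeff_zero]
  choose y hy using h4
  refine ⟨∑ i ∈ range ((contract l ρ).natDegree + 1), C (y i) * X ^ i, ?_⟩
  have h5 : (∑ i ∈ range ((contract l ρ).natDegree + 1), C (y i) * X ^ i : E[X]).map (frobenius E l) =
      contract l ρ := by
    ext i
    rw [coeff_map, finsetSum_coeff]
    simp only [coeff_C_mul, coeff_X_pow, mul_ite, mul_one, mul_zero]
    rw [Finset.sum_ite_eq (range ((contract l ρ).natDegree + 1)) i]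
    split_ifs with h
    · rw [frobenius_def, hy]
    · rw [mem_range, not_lt] at h
      rw [map_zero, coeff_eq_zero_of_natDegree_lt (by omega)]
  rw [← map_frobenius_expand l, map_expand, h5, h3]

/-- one step of the descent -/
theorem step {l H R : ℕ} [Fact l.Prime] [CharP E l] (hker : ∀ x, D x = 0 → ∃ y, x = y ^ l)
    (ρ₁ ρ₂ : E[X]) (T : Finset E) (h1 : ρ₁.natDegree ≤ H) (h2 : ρ₂.natDegree ≤ H) (hT : 2 * H < T.card)
    (hx : ∀ x ∈ T, ρ₂.eval x ≠ 0 ∧ ρ₂.eval x * D x ^ l ^ (R + 1) = ρ₁.eval x) :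
    (∃ r₁ r₂ : E[X], r₂ ≠ 0 ∧ r₁.natDegree ≤ 2 * H ∧ r₂.natDegree ≤ 2 * H ∧
      ∀ x ∈ T, r₂.eval x * D x = r₁.eval x) ∨
    ∃ η₁ η₂ : E[X], η₁.natDegree ≤ H ∧ η₂.natDegree ≤ H ∧
      ∀ x ∈ T, η₂.eval x ≠ 0 ∧ η₂.eval x * D x ^ l ^ R = η₁.eval x := by
  have hl : l.Prime := Fact.out
  obtain ⟨x₀, hx₀⟩ : T.Nonempty := by
    rw [← Finset.card_pos]
    omega
  have hρ2 : ρ₂ ≠ 0 := by
    rintro rfl
    exact (hx x₀ hx₀).1 eval_zero
  obtain ⟨a, b, c, hco, hmon, ha, hb, hda, hdb⟩ := reduce ρ₁ ρ₂ hρ2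
  have hda' : a.natDegree ≤ H := hda.trans h1
  have hdb' : b.natDegree ≤ H := hdb.trans h2
  have hx' : ∀ x ∈ T, b.eval x ≠ 0 ∧ b.eval x * D x ^ l ^ (R + 1) = a.eval x := by
    intro x hxT
    obtain ⟨h3, h4⟩ := hx x hxT
    rw [ha, hb] at h4
    rw [hb, eval_mul] at h3
    rw [eval_mul, eval_mul] at h4
    have hc0 := left_ne_zero_of_mul h3
    refine ⟨right_ne_zero_of_mul h3, ?_⟩
    apply mul_left_cancel₀ hc0
    rw [← mul_assoc, h4]
  have hrel : ∀ x ∈ T, (a * derivative b - derivative a * b).eval x * D x =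
      (cD D a * b - a * cD D b).eval x := by
    intro x hxT
    obtain ⟨h3, h4⟩ := hx' x hxT
    have hu : D (D x ^ l ^ (R + 1)) = 0 := by
      rw [D.leibniz_pow, nsmul_eq_mul, Nat.cast_pow, CharP.cast_eq_zero, zero_pow (by omega), zero_mul]
    have h5 := congrArg D h4
    rw [D.leibniz, hu, smul_zero, zero_add, smul_eq_mul, D_eval, D_eval] at h5
    simp only [eval_sub, eval_mul]
    linear_combination (b.eval x) * h5 - ((cD D b).eval x + (derivative b).eval x * D x) * h4
  by_cases hW : a * derivative b - derivative a * b = 0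
  · right
    have hv : cD D a * b - a * cD D b = 0 := by
      apply eq_zero_of_natDegree_lt_card_of_eval_eq_zero' _ T
      · intro x hxT
        rw [← hrel x hxT, hW, eval_zero, zero_mul]
      · refine lt_of_le_of_lt ?_ hT
        have e1 := cD_natDegree D a
        have e2 := cD_natDegree D b
        refine (natDegree_sub_le _ _).trans (max_le ?_ ?_)
        · exact natDegree_mul_le.trans (by omega)
        · exact natDegree_mul_le.trans (by omega)
    have hb0 : b ≠ 0 := hmon.ne_zero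
    have hdb : derivative b = 0 := by
      have h3 : b ∣ derivative b := by
        apply hco.symm.dvd_of_dvd_mul_left
        exact ⟨derivative a, by linear_combination hW⟩
      by_contra hne
      have h4 := natDegree_le_of_dvd h3 hne
      have h5 := natDegree_derivative_lt (p := b) (by
        intro h6
        apply hne
        rw [eq_C_of_natDegree_eq_zero h6, derivative_C])
      omega
    have hda : derivative a = 0 := by
      rw [hdb, mul_zero, zero_sub, neg_eq_zero] at hW
      exact (mul_eq_zero.1 hW).resolve_right hb0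
    have hcb : cD D b = 0 := by
      have h3 : b ∣ cD D b := by
        apply hco.symm.dvd_of_dvd_mul_left
        exact ⟨cD D a, by linear_combination -hv⟩
      by_contra hne
      have h4 := natDegree_le_of_dvd h3 hne
      have h5 := cD_natDegree D b
      have h6 : (cD D b).coeff b.natDegree = 0 := by
        rw [cD_coeff, hmon.coeff_natDegree, D.map_one_eq_zero]
      have h7 : (cD D b).natDegree = b.natDegree := le_antisymm h5 h4
      rw [← h7] at h6
      exact hne (leadingCoeff_eq_zero.1 h6)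
    have hca : cD D a = 0 := by
      rw [hcb, mul_zero, sub_zero] at hv
      exact (mul_eq_zero.1 hv).resolve_right hb0
    obtain ⟨η₁, hη₁⟩ := root D hker hda hca
    obtain ⟨η₂, hη₂⟩ := root D hker hdb hcb
    have hdeg : ∀ η : E[X], η.natDegree ≤ (η ^ l).natDegree := by
      intro η
      rw [natDegree_pow]
      exact Nat.le_mul_of_pos_left _ hl.pos
    refine ⟨η₁, η₂, ?_, ?_, ?_⟩
    · rw [hη₁] at hda'
      exact (hdeg η₁).trans hda'
    · rw [hη₂] at hdb'
      exact (hdeg η₂).trans hdb'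
    · intro x hxT
      obtain ⟨h3, h4⟩ := hx' x hxT
      rw [hη₂, eval_pow] at h3
      refine ⟨fun h => h3 (by rw [h, zero_pow hl.ne_zero]), ?_⟩
      apply frobenius_inj E l
      rw [frobenius_def, frobenius_def, mul_pow, ← pow_mul, ← pow_succ]
      rw [hη₁, hη₂, eval_pow, eval_pow] at h4
      exact h4
  · left
    refine ⟨cD D a * b - a * cD D b, a * derivative b - derivative a * b, hW, ?_, ?_, hrel⟩
    · have e1 := cD_natDegree D a
      have e2 := cD_natDegree D b
      refine (natDegree_sub_le _ _).trans (max_le ?_ ?_)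
      · exact natDegree_mul_le.trans (by omega)
      · exact natDegree_mul_le.trans (by omega)
    · have e1 := natDegree_derivative_le a
      have e2 := natDegree_derivative_le b
      refine (natDegree_sub_le _ _).trans (max_le ?_ ?_)
      · exact natDegree_mul_le.trans (by omega)
      · exact natDegree_mul_le.trans (by omega)

end

/-- **(N8)** -/
theorem dscP : S_dscP.{u} := by
  intro l H R
  induction R with
  | zero =>
    intro k E _ _ _ _ _ τ D _ ρ₁ ρ₂ T h1 h2 hT hx
    obtain ⟨x₀, hx₀⟩ : T.Nonempty := by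
      rw [← Finset.card_pos]
      omega
    refine ⟨ρ₁, ρ₂, ?_, by omega, by omega, fun x hxT => ?_⟩
    · rintro rfl
      exact (hx x₀ hx₀).1 eval_zero
    · have := (hx x hxT).2
      rwa [pow_zero, pow_one] at this
  | succ R ih =>
    intro k E _ _ _ _ _ τ D hτ ρ₁ ρ₂ T h1 h2 hT hx
    rcases step D hτ.ker ρ₁ ρ₂ T h1 h2 hT hx with h | ⟨η₁, η₂, h3, h4, h5⟩
    · exact h
    · exact ih k E τ D hτ η₁ η₂ T h3 h4 hT h5

end Pool.Agent.Q129.SP
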