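import Pool.Agent.Q41.SP.Stm5

/-! Project SP (helper41), job V6 (helper129): sublines of level `K` with many points. -/

set_option autoImplicit false

namespace Pool.Agent.Q129.SP.Fsk0

open Finset Polynomial
open Pool.Agent.Q41.SU
open Pool.Agent.Q41.SP

universe u

section
variable {E : Type*} [Field E]

/-- the composition of two Moebius maps -/
def cmp (m m' : Mb E) : Mb E :=
  ⟨m.α * m'.α + m.β * m'.γ, m.α * m'.β + m.β * m'.δ, m.γ * m'.α + m.δ * m'.γ, m.γ * m'.β + m.δ * m'.δ⟩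

theorem cmp_det (m m' : Mb E) : (cmp m m').det = m.det * m'.det := by
  unfold cmp Mb.det
  ring

theorem cmp_den (m m' : Mb E) {c : E} (h : m'.den c ≠ 0) :
    (cmp m m').den c = m.den (m'.app c) * m'.den c := by
  have h1 : m'.app c * m'.den c = m'.α * c + m'.β := div_mul_cancel₀ _ h
  have h2 : m.den (m'.app c) * m'.den c = m.γ * (m'.app c * m'.den c) + m.δ * m'.den c := by
    unfold Mb.den
    ring
  rw [h2, h1]
  unfold cmp Mb.den
  ring

theorem cmp_app (m m' : Mb E) {c : E} (h : m'.den c ≠ 0) (_h' : m.den (m'.app c) ≠ 0) :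
    (cmp m m').app c = m.app (m'.app c) := by
  have h1 : m'.app c * m'.den c = m'.α * c + m'.β := div_mul_cancel₀ _ h
  have h3 : (cmp m m').app c = ((m.α * m'.app c + m.β) * m'.den c) / (m.den (m'.app c) * m'.den c) := by
    rw [← cmp_den m m' h]
    have h4 : (m.α * m'.app c + m.β) * m'.den c = m.α * (m'.app c * m'.den c) + m.β * m'.den c := by ring
    rw [h4, h1]
    unfold Mb.app cmp Mb.den
    congr 1
    ring
  rw [h3, mul_div_mul_right _ _ h]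
  rfl

/-- the entries raised to the power `l` -/
def frm (l : ℕ) (m : Mb E) : Mb E := ⟨m.α ^ l, m.β ^ l, m.γ ^ l, m.δ ^ l⟩

variable {l : ℕ} [Fact l.Prime] [CharP E l]

theorem frm_det (m : Mb E) : (frm l m).det = m.det ^ l := by
  unfold frm Mb.det
  rw [sub_pow_char, mul_pow, mul_pow]

theorem frm_den (m : Mb E) (c : E) : (frm l m).den (c ^ l) = m.den c ^ l := by
  unfold frm Mb.den
  rw [add_pow_char, mul_pow]

theorem frm_app (m : Mb E) (c : E) : (frm l m).app (c ^ l) = m.app c ^ l := by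
  unfold Mb.app
  rw [frm_den, div_pow]
  unfold frm
  rw [add_pow_char, mul_pow]

end

/-- **(V6)** -/
theorem fsk0P (hnd : S_ndP.{u}) (hfr : S_frmP.{u}) (hpig : S_pigP) (hit : S_itP.{u}) (hint : S_intpP.{u})
    (hseg : S_segP.{u}) (hdn : S_dnP.{u}) (hrl : S_rldP.{u}) : S_fsk0P.{u} := by
  classical
  intro l d β K
  induction K generalizing d β with
  | zero =>
    intro ε _ _ hε
    refine ⟨ε, 0, hε, fun r H => ⟨0, ?_⟩⟩
    intro k E _ _ _ _ _ τ D _ p q _ n x _ _ W _ hW G _ _ _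
    refine ⟨⟨1, 0, 0, 1⟩, ?_, W, subset_rfl, hW, fun i _ => ⟨x i, ?_, ?_⟩⟩
    · unfold Mb.det
      simp
    · unfold Mb.den
      simp
    · unfold Mb.app Mb.den
      simp
  | succ K ih =>
    intro ε hl hd hε
    obtain ⟨ε₁, M₁, hε₁, hN₁⟩ := hnd l d β ε hl hd hε
    obtain ⟨J, ε₂, N₂, hε₂, hN₂⟩ := hpig 1 (ε₁ / 2) le_rfl (by positivity)
    obtain ⟨ε₃, hε₃d⟩ : ∃ ε₃ : ℝ, ε₃ = ε₁ / (4 * (J + 1)) := ⟨_, rfl⟩
    have hε₃ : 0 < ε₃ := by
      rw [hε₃d]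
      positivity
    choose η' M' hη' hN' using fun m' : ℕ => ih (d ^ (m' + 1)) β ε₃ hl
      (hd.trans (Nat.le_self_pow (Nat.succ_ne_zero m') d)) hε₃
    have hne : (range (J + 1)).Nonempty := ⟨0, by rw [mem_range]; omega⟩
    obtain ⟨η₀, hη₀d⟩ : ∃ η₀ : ℝ, η₀ = (range (J + 1)).inf' hne η' := ⟨_, rfl⟩
    have hη₀ : 0 < η₀ := by
      rw [hη₀d, Finset.lt_inf'_iff]
      exact fun m' _ => hη' m'
    have hη₀le : ∀ m' < J + 1, η₀ ≤ η' m' := by
      intro m' hm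
      rw [hη₀d]
      exact Finset.inf'_le _ (mem_range.2 hm)
    obtain ⟨M₀, hM₀⟩ : ∃ M₀ : ℕ, M₀ = (range (J + 1)).sup M' := ⟨_, rfl⟩
    have hM₀le : ∀ m' < J + 1, M' m' ≤ M₀ := by
      intro m' hm
      rw [hM₀]
      exact Finset.le_sup (f := M') (mem_range.2 hm)
    refine ⟨η₀ * ε₃, M₁ + l * M₀, by positivity, fun r H => ?_⟩
    obtain ⟨N₁, hN₁⟩ := hN₁ r H
    choose N' hN' using fun m' : ℕ => hN' m' (r + 1) (l * H)
    obtain ⟨N₃, hN₃⟩ : ∃ N₃ : ℕ, N₃ = (range (J + 1)).sup N' := ⟨_, rfl⟩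
    have hN₃le : ∀ m' < J + 1, N' m' ≤ N₃ := by
      intro m' hm
      rw [hN₃]
      exact Finset.le_sup (f := N') (mem_range.2 hm)
    refine ⟨N₁ + N₂ + ⌈3 / ε₁⌉₊ + ⌈(2 * (d : ℝ) ^ J + 1) / ε₂⌉₊ + ⌈(N₃ : ℝ) / ε₃⌉₊, ?_⟩
    intro k E _ _ _ _ _ τ D hτ p q hRM n x hx hn W hWn hW G hG hGr hV
    have hn1 : (3 : ℝ) ≤ ε₁ * n := by
      have h1 : (3 / ε₁ : ℝ) ≤ n := (Nat.le_ceil _).trans (by exact_mod_cast (by omega : ⌈3 / ε₁⌉₊ ≤ n))
      rw [div_le_iff₀ hε₁] at h1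
      linarith
    have hn2 : 2 * (d : ℝ) ^ J + 1 ≤ ε₂ * n := by
      have h1 : ((2 * (d : ℝ) ^ J + 1) / ε₂ : ℝ) ≤ n :=
        (Nat.le_ceil _).trans (by exact_mod_cast (by omega : ⌈(2 * (d : ℝ) ^ J + 1) / ε₂⌉₊ ≤ n))
      rw [div_le_iff₀ hε₂] at h1
      linarith
    have hn3 : (N₃ : ℝ) ≤ ε₃ * n := by
      have h1 : ((N₃ : ℝ) / ε₃ : ℝ) ≤ n :=
        (Nat.le_ceil _).trans (by exact_mod_cast (by omega : ⌈(N₃ : ℝ) / ε₃⌉₊ ≤ n))
      rw [div_le_iff₀ hε₃] at h1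
      linarith
    -- the quadratic relation
    obtain ⟨aa, bb, cc, W₁, hW₁, hW₁c, hq⟩ := hN₁ k E τ D hτ p q hRM n x hx (by omega) W hWn hW G hG hGr
      (fun i hi => (pow_dvd_pow _ (by omega)).trans (hV i hi))
    have hinj : Set.InjOn x W₁ := by
      intro i hi j hj hij
      exact hx.inj i (mem_range.1 (hWn (hW₁ hi))) j (mem_range.1 (hWn (hW₁ hj))) hij
    have hW₁3 : 3 ≤ W₁.card := by
      have h1 : (3 : ℝ) ≤ W₁.card := hn1.trans hW₁c
      exact_mod_cast h1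
    obtain ⟨μ, x₀, hμ, hμx⟩ := hfr l k E τ D hτ aa bb cc (W₁.image x) (by
      rw [card_image_of_injOn hinj]
      exact hW₁3) (by
      intro y hy
      obtain ⟨i, hi, rfl⟩ := mem_image.1 hy
      exact hq i hi)
    obtain ⟨W₂, hW₂d⟩ : ∃ W₂ : Finset ℕ, W₂ = W₁.filter fun i => x i ≠ x₀ := ⟨_, rfl⟩
    have hW₂W₁ : W₂ ⊆ W₁ := by
      rw [hW₂d]
      exact filter_subset _ _
    have hW₂s : ∀ i ∈ W₂, Sub l 1 μ (x i) := by
      intro i hi
      rw [hW₂d, mem_filter] at hi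
      exact hμx _ (mem_image_of_mem x hi.1) hi.2
    have hW₂c : ε₁ / 2 * n ≤ (W₂.card : ℝ) := by
      have h1 : W₁.card ≤ W₂.card + 1 := by
        have h2 := card_filter_add_card_filter_not (s := W₁) (fun i => x i ≠ x₀)
        have h3 : (W₁.filter fun i => ¬ x i ≠ x₀).card ≤ 1 := by
          rw [card_le_one]
          intro i hi j hj
          rw [mem_filter, not_not] at hi hj
          exact hinj hi.1 hj.1 (hi.2.trans hj.2.symm)
        rw [← hW₂d] at h2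
        omega
      have h2 : (W₁.card : ℝ) ≤ W₂.card + 1 := by exact_mod_cast h1
      linarith
    have hW₂n : W₂ ⊆ range n := hW₂W₁.trans (hW₁.trans hWn)
    obtain ⟨m, hm1, hmJ, -, hF⟩ := hN₂ n (by omega) W₂ hW₂n hW₂c
    obtain ⟨F, hFd⟩ : ∃ F : Finset ℕ, F = W₂.filter fun i => i + m ∈ W₂ := ⟨_, rfl⟩
    rw [← hFd] at hF
    obtain ⟨m', rfl⟩ : ∃ m', m = m' + 1 := ⟨m - 1, by omega⟩
    obtain ⟨hRMm, hitm, -⟩ := hit E d p q (by omega) hRM (m' + 1)
    obtain ⟨P, hP⟩ : ∃ P, P = (itr d p q (m' + 1)).1 := ⟨_, rfl⟩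
    obtain ⟨Q, hQ⟩ : ∃ Q, Q = (itr d p q (m' + 1)).2 := ⟨_, rfl⟩
    have hitm' := hitm n x hx
    -- the interpolation
    have hex : ∀ i, ∃ w : E, i ∈ W₂ → μ.den (w ^ l ^ 1) ≠ 0 ∧ x i = μ.app (w ^ l ^ 1) := by
      intro i
      by_cases hi : i ∈ W₂
      · obtain ⟨w, hw⟩ := hW₂s i hi
        exact ⟨w, fun _ => hw⟩
      · exact ⟨0, fun h => absurd h hi⟩
    choose w hw using hex
    have hFW : F ⊆ W₂ := by
      rw [hFd]
      exact filter_subset _ _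
    have hwinj : Set.InjOn w F := by
      intro i hi j hj hij
      have h1 := (hw i (hFW hi)).2
      have h2 := (hw j (hFW hj)).2
      rw [hij, ← h2] at h1
      exact hinj (hW₂W₁ (hFW hi)) (hW₂W₁ (hFW hj)) h1
    obtain ⟨P₀, Q₀, hOv⟩ := hint l 1 (d ^ (m' + 1)) E P Q (by rw [hP, hQ]; exact hRMm) μ (F.image w) hμ (by
      rw [card_image_of_injOn hwinj]
      have h1 : (2 * d ^ (m' + 1) : ℕ) < (F.card : ℝ) := by
        have h2 : (d : ℝ) ^ (m' + 1) ≤ (d : ℝ) ^ J :=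
          pow_le_pow_right₀ (by exact_mod_cast (by omega : 1 ≤ d)) hmJ
        push_cast
        linarith
      exact_mod_cast h1) (by
      intro v hv
      obtain ⟨i, hi, rfl⟩ := mem_image.1 hv
      have hi2 : i + (m' + 1) ∈ W₂ := by
        rw [hFd, mem_filter] at hi
        exact hi.2
      obtain ⟨h1, h2⟩ := hw i (hFW hi)
      obtain ⟨h3, h4⟩ := hitm' i (mem_range.1 (hW₂n hi2))
      refine ⟨h1, ?_, ?_⟩
      · rw [← h2, hQ]
        exact h3
      · rw [← h2, hP, hQ, ← h4]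
        exact hW₂s _ hi2)
    obtain ⟨i₀, n', hn', hseg', hsub', hcard'⟩ := hseg l 1 d (m' + 1) E p q P₀ Q₀ μ (by omega) hRM hm1
      (by rw [← hP, ← hQ]; exact hOv) n x hx W₂ hW₂n hW₂s
    rw [← hP, ← hQ] at hseg'
    obtain ⟨z, hz, hzx⟩ := hdn l 1 (d ^ (m' + 1)) E P Q P₀ Q₀ μ (by rw [hP, hQ]; exact hRMm) hOv n' _ hseg' hsub'
    obtain ⟨G', hG', hG'r, hG'V⟩ := hrl l r β H (M₁ + l * M₀) k E τ D hτ μ hμ G hG hGr
    obtain ⟨W₃, hW₃d⟩ : ∃ W₃ : Finset ℕ, W₃ = (range n').filter fun j => i₀ + j * (m' + 1) ∈ W₂ := ⟨_, rfl⟩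
    rw [← hW₃d] at hcard'
    have hW₃n : W₃ ⊆ range n' := by
      rw [hW₃d]
      exact filter_subset _ _
    have hW₃c : ε₃ * n ≤ (W₃.card : ℝ) := by
      have h1 : ((m' + 1 : ℕ) : ℝ) ≤ (J : ℝ) + 1 := by
        have : m' + 1 ≤ J + 1 := by omega
        exact_mod_cast this
      have h2 : (W₂.card : ℝ) ≤ 2 * (J + 1) * (W₃.card : ℝ) := by
        refine hcard'.trans ?_
        have h3 : (0 : ℝ) ≤ (W₃.card : ℝ) := Nat.cast_nonneg _
        nlinarith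
      have h4 : ε₁ / 2 * n ≤ 2 * (J + 1) * (W₃.card : ℝ) := hW₂c.trans h2
      have h5 : ε₁ = ε₃ * (4 * (J + 1)) := by
        rw [hε₃d]
        field_simp
      rw [h5] at h4
      have h6 : (0 : ℝ) < 2 * ((J : ℝ) + 1) := by positivity
      have h7 : 2 * ((J : ℝ) + 1) * (ε₃ * n) ≤ 2 * (J + 1) * (W₃.card : ℝ) := by linarith
      exact le_of_mul_le_mul_left h7 h6
    have hn'c : (W₃.card : ℝ) ≤ n' := by
      have h1 := card_le_card hW₃n
      rw [card_range] at h1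
      exact_mod_cast h1
    have hn'n : (n' : ℝ) ≤ n := by exact_mod_cast hn'
    have hm'J : m' < J + 1 := by omega
    have hRM₀ : RM (d ^ (m' + 1)) P₀ Q₀ := by
      have h1 := hOv.rm
      constructor
      · exact (isCoprime_map (iterateFrobenius E l 1)).1 h1.co
      · have h2 := h1.deg
        rwa [natDegree_map, natDegree_map] at h2
    obtain ⟨μ', hμ', W₄, hW₄, hW₄c, hW₄s⟩ := hN' m' k E τ D hτ P₀ Q₀ hRM₀ n' z hz (by
      have h1 : (N' m' : ℝ) ≤ n' := by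
        have h2 : (N' m' : ℝ) ≤ N₃ := by exact_mod_cast hN₃le m' hm'J
        linarith
      exact_mod_cast h1) W₃ hW₃n (by
      have h1 : ε₃ * (n' : ℝ) ≤ ε₃ * n := mul_le_mul_of_nonneg_left hn'n hε₃.le
      linarith) G' hG' hG'r (by
      intro j hj
      rw [hW₃d, mem_filter, mem_range] at hj
      obtain ⟨h1, h2⟩ := hzx j hj.1
      have h3 := hV _ (hW₁ (hW₂W₁ hj.2))
      rw [pow_one] at h1 h2
      rw [h2] at h3
      refine (pow_dvd_pow _ ?_).trans (hG'V (z j) h1 h3)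
      have h4 := hM₀le m' hm'J
      have h5 : l * M₀ / l = M₀ := Nat.mul_div_cancel_left _ hl.pos
      have h6 : l * M₀ / l ≤ (M₁ + l * M₀) / l := Nat.div_le_div_right (by omega)
      omega)
    have hW₄m : ∀ j ∈ W₄, j < n' ∧ i₀ + j * (m' + 1) ∈ W₂ := by
      intro j hj
      have h1 := hW₄ hj
      rw [hW₃d, mem_filter, mem_range] at h1
      exact h1
    refine ⟨cmp μ (frm l μ'), ?_, W₄.image fun j => i₀ + j * (m' + 1), ?_, ?_, ?_⟩
    · rw [cmp_det, frm_det]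
      exact mul_ne_zero hμ (pow_ne_zero _ hμ')
    · intro i hi
      obtain ⟨j, hj, rfl⟩ := mem_image.1 hi
      exact hW₁ (hW₂W₁ (hW₄m j hj).2)
    · rw [card_image_of_injective]
      · have h1 : ε₃ * n ≤ (n' : ℝ) := hW₃c.trans hn'c
        calc η₀ * ε₃ * n = η₀ * (ε₃ * n) := by ring
          _ ≤ η₀ * n' := mul_le_mul_of_nonneg_left h1 hη₀.le
          _ ≤ η' m' * n' := mul_le_mul_of_nonneg_right (hη₀le m' hm'J) (Nat.cast_nonneg _)
          _ ≤ _ := hW₄c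
      · intro j j' hjj
        have h1 : j * (m' + 1) = j' * (m' + 1) := Nat.add_left_cancel hjj
        exact Nat.eq_of_mul_eq_mul_right (Nat.succ_pos m') h1
    · intro i hi
      obtain ⟨j, hj, rfl⟩ := mem_image.1 hi
      obtain ⟨v, hv1, hv2⟩ := hW₄s j hj
      obtain ⟨h1, h2⟩ := hzx j (hW₄m j hj).1
      rw [pow_one] at h1 h2
      have h3 : (frm l μ').app (v ^ l ^ (K + 1)) = z j ^ l := by
        rw [pow_succ, pow_mul, frm_app, ← hv2]
      have h4 : (frm l μ').den (v ^ l ^ (K + 1)) ≠ 0 := by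
        rw [pow_succ, pow_mul, frm_den]
        exact pow_ne_zero _ hv1
      refine ⟨v, ?_, ?_⟩
      · rw [cmp_den _ _ h4, h3]
        exact mul_ne_zero h1 h4
      · rw [cmp_app _ _ h4 (by rw [h3]; exact h1), h3]
        exact h2

end Pool.Agent.Q129.SP.Fsk0
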