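import Pool.Agent.Q41.SP.Stm5
import Pool.Agent.Q129.SP.Clo

/-! Project SP (helper41), job V4 (helper129): descent of relations. -/

set_option autoImplicit false

namespace Pool.Agent.Q129.SP.Rld

open Finset Polynomial
open Pool.Agent.Q41.SU
open Pool.Agent.Q41.SP
open Pool.Agent.Q129.SP.Clo (hcrH hcrH_apply hcr_monomial hcr_mul)

universe u

/-! ## Additive maps on the coefficients -/

section mA
variable {R S : Type*} [CommRing R] [CommRing S]

/-- an additive map applied to the coefficients -/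
noncomputable def mA0 (T : R →+ S) (p : R[X]) : S[X] :=
  ∑ i ∈ range (p.natDegree + 1), monomial i (T (p.coeff i))

theorem mA0_coeff (T : R →+ S) (p : R[X]) (i : ℕ) : (mA0 T p).coeff i = T (p.coeff i) := by
  unfold mA0
  rw [finsetSum_coeff]
  simp only [coeff_monomial]
  rw [Finset.sum_ite_eq' (range (p.natDegree + 1)) i]
  split_ifs with h
  · rfl
  · rw [mem_range, not_lt] at h
    rw [coeff_eq_zero_of_natDegree_lt (by omega), map_zero]

/-- an additive map applied to the coefficients -/
noncomputable def mA (T : R →+ S) : R[X] →+ S[X] where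
  toFun p := mA0 T p
  map_zero' := by
    ext i
    rw [mA0_coeff, coeff_zero, map_zero, coeff_zero]
  map_add' p q := by
    ext i
    rw [mA0_coeff, coeff_add, map_add, coeff_add, mA0_coeff, mA0_coeff]

theorem mA_coeff (T : R →+ S) (p : R[X]) (i : ℕ) : (mA T p).coeff i = T (p.coeff i) := mA0_coeff T p i

theorem mA_monomial (T : R →+ S) (n : ℕ) (a : R) : mA T (monomial n a) = monomial n (T a) := by
  ext i
  rw [mA_coeff, coeff_monomial, coeff_monomial]
  split_ifs
  · rfl
  · exact map_zero _

theorem mA_natDegree (T : R →+ S) (p : R[X]) : (mA T p).natDegree ≤ p.natDegree := by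
  rw [natDegree_le_iff_coeff_eq_zero]
  intro i hi
  rw [mA_coeff, coeff_eq_zero_of_natDegree_lt hi, map_zero]

theorem evalEval_monomial (x y a : R) (i j : ℕ) :
    (monomial j (monomial i a) : R[X][X]).evalEval x y = a * x ^ i * y ^ j := by
  unfold evalEval
  rw [eval_monomial, eval_mul, eval_monomial, eval_pow, eval_C]

/-- compatibility with evaluation -/
theorem mA_eval (T : R →+ R) {x x' y y' : R} (hx : ∀ A, T (A * x) = T A * x')
    (hy : ∀ A, T (A * y) = T A * y') (F : R[X][X]) :
    T (F.evalEval x y) = (mA (mA T) F).evalEval x' y' := by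
  have hp : ∀ {s s' : R}, (∀ A, T (A * s) = T A * s') → ∀ (n : ℕ) A, T (A * s ^ n) = T A * s' ^ n := by
    intro s s' hs n
    induction n with
    | zero => intro A; rw [pow_zero, pow_zero, mul_one, mul_one]
    | succ n ih => intro A; rw [pow_succ, ← mul_assoc, hs, ih, pow_succ, mul_assoc]
  induction F using Polynomial.induction_on' with
  | add p q h1 h2 => rw [evalEval_add, map_add, h1, h2, map_add, evalEval_add]
  | monomial j f =>
    rw [mA_monomial]
    induction f using Polynomial.induction_on' with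
    | add p q h1 h2 => rw [map_add, evalEval_add, map_add, h1, h2, map_add, map_add, evalEval_add]
    | monomial i a =>
      rw [mA_monomial, evalEval_monomial, evalEval_monomial, hp hy, hp hx]

end mA

/-! ## Moebius substitutions -/

section moebius
variable {R : Type*} [CommRing R]

theorem hcr_one (a b : R) (u v : R[X]) : hcr 1 (C a * X + C b) u v = C a * u + C b * v := by
  unfold hcr
  rw [sum_range_succ, sum_range_succ, sum_range_zero]
  simp only [coeff_add, coeff_C_mul, coeff_X, coeff_C, pow_zero, pow_one]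
  simp
  ring

theorem hcr_pow {f : R[X]} (hf : f.natDegree ≤ 1) (u v : R[X]) (n : ℕ) :
    hcr n (f ^ n) u v = hcr 1 f u v ^ n := by
  induction n with
  | zero =>
    unfold hcr
    simp
  | succ n ih =>
    rw [pow_succ, hcr_mul (natDegree_pow_le_of_le n hf |>.trans (by omega)) hf, ih, pow_succ]

theorem nd_lin (a b : R) : (C a * X + C b : R[X]).natDegree ≤ 1 := natDegree_linear_le

theorem hcr_smul (d : ℕ) (c : R) (g u v : R[X]) : hcr d (C c * g) u v = C c * hcr d g u v := by
  unfold hcr
  rw [mul_sum]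
  refine sum_congr rfl fun i _ => ?_
  rw [coeff_C_mul, C_mul]
  ring

/-- the inverse substitution -/
theorem hcr_inv {d : ℕ} {g : R[X]} (hg : g.natDegree ≤ d) (a b c e : R) :
    hcr d (hcr d g (C a * X + C b) (C c * X + C e)) (C e * X + C (-b)) (C (-c) * X + C a) =
      C ((a * e - b * c) ^ d) * g := by
  have h1 : hcr d g (C a * X + C b) (C c * X + C e) = ∑ i ∈ range (d + 1),
      C (g.coeff i) * ((C a * X + C b) ^ i * (C c * X + C e) ^ (d - i)) := by
    unfold hcr
    exact sum_congr rfl fun i _ => by ring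
  have h3 : C ((a * e - b * c) ^ d) * g = ∑ i ∈ range (d + 1), C (g.coeff i) *
      ((C (a * e - b * c) * X) ^ i * C (a * e - b * c) ^ (d - i)) := by
    nth_rewrite 1 [as_sum_range' g (d + 1) (Nat.lt_succ_of_le hg)]
    rw [mul_sum]
    refine sum_congr rfl fun i hi => ?_
    rw [mem_range] at hi
    rw [← C_mul_X_pow_eq_monomial, C_pow,
      show (C (a * e - b * c) : R[X]) ^ d = C (a * e - b * c) ^ i * C (a * e - b * c) ^ (d - i) by
        rw [← pow_add]; congr 1; omega]
    ring
  rw [h1, ← hcrH_apply, map_sum, h3]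
  refine sum_congr rfl fun i hi => ?_
  rw [mem_range] at hi
  rw [hcrH_apply, hcr_smul]
  congr 1
  obtain ⟨j, rfl⟩ : ∃ j, d = i + j := ⟨d - i, by omega⟩
  rw [show i + j - i = j by omega,
    hcr_mul (natDegree_pow_le_of_le i (nd_lin a b) |>.trans (by omega))
      (natDegree_pow_le_of_le j (nd_lin c e) |>.trans (by omega)), hcr_pow (nd_lin a b), hcr_pow (nd_lin c e),
    hcr_one, hcr_one]
  congr 2
  · simp only [map_sub, map_neg, map_mul]
    ring
  · simp only [map_sub, map_neg, map_mul]
    ring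

theorem hcr_inj [IsDomain R] {d : ℕ} {g : R[X]} (hg : g.natDegree ≤ d) {a b c e : R}
    (hd : a * e - b * c ≠ 0) (h : hcr d g (C a * X + C b) (C c * X + C e) = 0) : g = 0 := by
  have h1 := hcr_inv hg a b c e
  rw [h, ← hcrH_apply, map_zero] at h1
  exact (mul_eq_zero.1 h1.symm).resolve_left fun h2 => pow_ne_zero _ hd (C_eq_zero.1 h2)

theorem hcr_natDegree {d : ℕ} (g : R[X]) {u v : R[X]} (hu : u.natDegree ≤ 1) (hv : v.natDegree ≤ 1) :
    (hcr d g u v).natDegree ≤ d := by
  unfold hcr
  refine natDegree_sum_le_of_forall_le _ _ fun i hi => ?_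
  rw [mem_range] at hi
  have h1 := natDegree_pow_le_of_le i hu
  have h2 := natDegree_pow_le_of_le (d - i) hv
  have h3 : (C (g.coeff i) * u ^ i).natDegree ≤ i := (natDegree_C_mul_le _ _).trans (h1.trans (by omega))
  exact natDegree_mul_le.trans (by omega)

theorem hcr_eval {d : ℕ} {g : R[X]} (hg : g.natDegree ≤ d) {u v : R[X]} {s t : R}
    (h : u.eval s = t * v.eval s) : (hcr d g u v).eval s = v.eval s ^ d * g.eval t := by
  unfold hcr
  rw [eval_finsetSum, eval_eq_sum_range' (Nat.lt_succ_of_le hg), mul_sum]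
  refine sum_congr rfl fun i hi => ?_
  rw [mem_range] at hi
  rw [eval_mul, eval_mul, eval_C, eval_pow, eval_pow, h,
    show v.eval s ^ d = v.eval s ^ i * v.eval s ^ (d - i) by rw [← pow_add]; congr 1; omega]
  ring

end moebius

/-! ## The pull-back -/

section nvs
variable {E : Type*} [Field E]

theorem nv_eval {β H : ℕ} {P Q : E[X]} {P' Q' : (PowerSeries E)[X]} {G : (PowerSeries E)[X][X]}
    (hG : Dg β H G) {x x₁ : E} {y y₁ : PowerSeries E} (h1 : P.eval x = x₁ * Q.eval x)
    (h2 : P'.eval y = y₁ * Q'.eval y) :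
    (nv β H P Q P' Q' G).evalEval (PowerSeries.C x) y =
      PowerSeries.C (Q.eval x) ^ H * Q'.eval y ^ β * G.evalEval (PowerSeries.C x₁) y₁ := by
  have h3 : G.evalEval (PowerSeries.C x₁) y₁ =
      ∑ j ∈ range (β + 1), (G.coeff j).eval (PowerSeries.C x₁) * y₁ ^ j := by
    unfold evalEval
    rw [eval_eq_sum_range' (Nat.lt_succ_of_le hG.1), eval_finsetSum]
    refine sum_congr rfl fun j _ => ?_
    rw [eval_mul, eval_pow, eval_C]
  rw [h3]
  unfold nv
  rw [evalEval_finsetSum, mul_sum]
  refine sum_congr rfl fun j hj => ?_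
  rw [mem_range] at hj
  rw [evalEval_mul, evalEval_mul, evalEval_pow, evalEval_pow, evalEval_C, evalEval_map_C, evalEval_map_C, h2]
  have h4 : (P.map PowerSeries.C).eval (PowerSeries.C x) =
      PowerSeries.C x₁ * (Q.map PowerSeries.C).eval (PowerSeries.C x) := by
    rw [eval_map, eval_map, eval₂_at_apply, eval₂_at_apply, h1, map_mul]
  rw [hcr_eval (hG.2 j) h4]
  have h5 : (Q.map PowerSeries.C).eval (PowerSeries.C x) = PowerSeries.C (Q.eval x) := by
    rw [eval_map, eval₂_at_apply]
  rw [h5, show Q'.eval y ^ β = Q'.eval y ^ j * Q'.eval y ^ (β - j) by rw [← pow_add]; congr 1; omega]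
  ring

theorem nv_dg {β H : ℕ} {P Q : E[X]} {P' Q' : (PowerSeries E)[X]} (G : (PowerSeries E)[X][X])
    (h1 : P.natDegree ≤ 1) (h2 : Q.natDegree ≤ 1) (h3 : P'.natDegree ≤ 1) (h4 : Q'.natDegree ≤ 1) :
    Dg β H (nv β H P Q P' Q' G) := by
  have h5 : ∀ j, (hcr H (G.coeff j) (P.map PowerSeries.C) (Q.map PowerSeries.C)).natDegree ≤ H := fun j =>
    hcr_natDegree _ (natDegree_map_le.trans h1) (natDegree_map_le.trans h2)
  constructor
  · unfold nv
    refine natDegree_sum_le_of_forall_le _ _ fun j hj => ?_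
    rw [mem_range] at hj
    have e1 := natDegree_pow_le_of_le j ((natDegree_map_le (f := (C : PowerSeries E →+* (PowerSeries E)[X]))).trans h3)
    have e2 := natDegree_pow_le_of_le (β - j) ((natDegree_map_le (f := (C : PowerSeries E →+* (PowerSeries E)[X]))).trans h4)
    have e3 := (natDegree_C_mul_le (hcr H (G.coeff j) (P.map PowerSeries.C) (Q.map PowerSeries.C))
      ((P'.map C : (PowerSeries E)[X][X]) ^ j)).trans e1
    exact natDegree_mul_le.trans (by omega)
  · intro i
    unfold nv
    rw [finsetSum_coeff]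
    refine natDegree_sum_le_of_forall_le _ _ fun j hj => ?_
    rw [← Polynomial.map_pow, ← Polynomial.map_pow, mul_assoc, ← Polynomial.map_mul, coeff_C_mul, coeff_map]
    refine natDegree_mul_le.trans ?_
    rw [natDegree_C, add_zero]
    exact h5 j

theorem red_coeff (G : (PowerSeries E)[X][X]) (j : ℕ) :
    (red G).coeff j = (G.coeff j).map PowerSeries.constantCoeff := by
  unfold red
  rw [coeff_map]
  rfl

theorem hcr_map {R S : Type*} [CommRing R] [CommRing S] (f : R →+* S) (d : ℕ) (g u v : R[X]) :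
    (hcr d g u v).map f = hcr d (g.map f) (u.map f) (v.map f) := by
  unfold hcr
  rw [Polynomial.map_sum]
  refine sum_congr rfl fun i _ => ?_
  rw [Polynomial.map_mul, Polynomial.map_mul, Polynomial.map_pow, Polynomial.map_pow, map_C, coeff_map]

/-- the reduction of the pull-back by Moebius maps is not zero -/
theorem nv_red {β H : ℕ} {a b c e : E} {a' b' c' e' : PowerSeries E} {G : (PowerSeries E)[X][X]}
    (hG : Dg β H G) (hd : a * e - b * c ≠ 0) (hd' : PowerSeries.constantCoeff (a' * e' - b' * c') ≠ 0)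
    (hr : red G ≠ 0) :
    red (nv β H (C a * X + C b) (C c * X + C e) (C a' * X + C b') (C c' * X + C e') G) ≠ 0 := by
  intro h
  apply hr
  have h1 : red (nv β H (C a * X + C b) (C c * X + C e) (C a' * X + C b') (C c' * X + C e') G) =
      hcr β (mA (hcrH H (C a * X + C b) (C c * X + C e)) (red G))
        (C (C (PowerSeries.constantCoeff a')) * X + C (C (PowerSeries.constantCoeff b')))
        (C (C (PowerSeries.constantCoeff c')) * X + C (C (PowerSeries.constantCoeff e'))) := by
    unfold red nv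
    rw [Polynomial.map_sum]
    unfold hcr
    refine sum_congr rfl fun j _ => ?_
    rw [Polynomial.map_mul, Polynomial.map_mul, Polynomial.map_pow, Polynomial.map_pow, map_C,
      mA_coeff, hcrH_apply]
    simp only [Polynomial.map_add, Polynomial.map_mul, map_C, map_X, coe_mapRingHom, coeff_map]
    have e1 := hcr_map PowerSeries.constantCoeff H (G.coeff j)
      ((C a * X + C b : E[X]).map PowerSeries.C) ((C c * X + C e : E[X]).map PowerSeries.C)
    simp only [Polynomial.map_add, Polynomial.map_mul, map_C, map_X, PowerSeries.constantCoeff_C] at e1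
    unfold hcr at e1
    rw [e1]
    rfl
  rw [h1] at h
  have h2 : mA (hcrH H (C a * X + C b) (C c * X + C e)) (red G) = 0 := by
    refine hcr_inj ((mA_natDegree _ _).trans (natDegree_map_le.trans hG.1)) ?_ h
    rw [← C_mul, ← C_mul, ← C_sub]
    rw [map_sub, map_mul, map_mul] at hd'
    exact fun h2 => hd' (C_eq_zero.1 h2)
  ext1 j
  rw [coeff_zero]
  have h3 := congrArg (fun F : E[X][X] => F.coeff j) h2
  simp only [mA_coeff, coeff_zero, hcrH_apply] at h3
  refine hcr_inj ?_ hd h3
  rw [red_coeff]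
  exact natDegree_map_le.trans (hG.2 j)

end nvs

/-! ## The coefficients of exponents divisible by `l` -/

section ts
variable {E : Type*} [Field E]

/-- `∑ f_{l n} δ ^ n` -/
noncomputable def Ts (l : ℕ) : PowerSeries E →+ PowerSeries E where
  toFun f := PowerSeries.mk fun n => PowerSeries.coeff (l * n) f
  map_zero' := by
    ext n
    rw [PowerSeries.coeff_mk, map_zero, map_zero]
  map_add' f g := by
    ext n
    rw [PowerSeries.coeff_mk, map_add, map_add, PowerSeries.coeff_mk, PowerSeries.coeff_mk]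

theorem Ts_coeff (l : ℕ) (f : PowerSeries E) (n : ℕ) :
    PowerSeries.coeff n (Ts l f) = PowerSeries.coeff (l * n) f :=
  PowerSeries.coeff_mk n fun n => PowerSeries.coeff (l * n) f

theorem Ts_const (l : ℕ) (f : PowerSeries E) :
    PowerSeries.constantCoeff (Ts l f) = PowerSeries.constantCoeff f := by
  rw [← PowerSeries.coeff_zero_eq_constantCoeff_apply, ← PowerSeries.coeff_zero_eq_constantCoeff_apply,
    Ts_coeff, mul_zero]

theorem Ts_C (l : ℕ) (c : E) (A : PowerSeries E) :
    Ts l (A * PowerSeries.C c) = Ts l A * PowerSeries.C c := by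
  ext n
  rw [Ts_coeff, PowerSeries.coeff_mul_C, PowerSeries.coeff_mul_C, Ts_coeff]

theorem Ts_expand {l : ℕ} (hl : l ≠ 0) (W A : PowerSeries E) :
    Ts l (A * PowerSeries.expand l hl W) = Ts l A * W := by
  ext n
  have hl0 : 0 < l := Nat.pos_of_ne_zero hl
  rw [Ts_coeff, PowerSeries.coeff_mul, PowerSeries.coeff_mul]
  have h1 : ∑ p ∈ antidiagonal n, PowerSeries.coeff p.1 (Ts l A) * PowerSeries.coeff p.2 W =
      ∑ p ∈ (antidiagonal n).image (fun p : ℕ × ℕ => (l * p.1, l * p.2)), PowerSeries.coeff p.1 A *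
        PowerSeries.coeff p.2 (PowerSeries.expand l hl W) := by
    rw [Finset.sum_image]
    · refine Finset.sum_congr rfl fun p _ => ?_
      rw [Ts_coeff, PowerSeries.coeff_expand_mul]
    · intro p _ q _ h
      simp only [Prod.mk.injEq] at h
      ext
      · exact Nat.eq_of_mul_eq_mul_left hl0 h.1
      · exact Nat.eq_of_mul_eq_mul_left hl0 h.2
  rw [h1]
  symm
  apply Finset.sum_subset
  · intro p hp
    obtain ⟨q, hq, rfl⟩ := Finset.mem_image.1 hp
    rw [HasAntidiagonal.mem_antidiagonal] at hq ⊢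
    show l * q.1 + l * q.2 = l * n
    rw [← mul_add, hq]
  · intro p hp hp2
    rw [HasAntidiagonal.mem_antidiagonal] at hp
    rw [PowerSeries.coeff_expand]
    split_ifs with h
    · exfalso
      apply hp2
      obtain ⟨b, hb⟩ := h
      have h2 : l ∣ p.1 := by
        have h3 : l ∣ p.1 + p.2 := by
          rw [hp]
          exact Dvd.intro _ rfl
        exact (Nat.dvd_add_left (hb ▸ Dvd.intro _ rfl)).1 h3
      obtain ⟨a, ha⟩ := h2
      refine Finset.mem_image.2 ⟨(a, b), ?_, ?_⟩
      · rw [HasAntidiagonal.mem_antidiagonal]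
        apply Nat.eq_of_mul_eq_mul_left hl0
        rw [mul_add]
        show l * a + l * b = l * n
        rw [← ha, ← hb, hp]
      · ext
        · exact ha.symm
        · exact hb.symm
    · rw [mul_zero]

theorem Ts_dvd {l M : ℕ} {f : PowerSeries E} (h : (PowerSeries.X : PowerSeries E) ^ M ∣ f) :
    (PowerSeries.X : PowerSeries E) ^ (M / l) ∣ Ts l f := by
  rw [PowerSeries.X_pow_dvd_iff] at h ⊢
  intro m hm
  rw [Ts_coeff]
  apply h
  rcases Nat.eq_zero_or_pos l with h0 | h0
  · rw [h0, Nat.div_zero] at hm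
    omega
  · exact (Nat.mul_le_mul_left l (Nat.succ_le_of_lt hm)).trans (Nat.mul_div_le M l) |> fun h2 => by
      rw [Nat.mul_succ] at h2
      omega

theorem pow_eq_expand {l : ℕ} [Fact l.Prime] [CharP E l] (S : PowerSeries E) (hl : l ≠ 0) :
    S ^ l = PowerSeries.expand l hl (PowerSeries.map (frobenius E l) S) := by
  rw [← PowerSeries.map_expand]
  exact (MvPowerSeries.map_frobenius_expand l hl).symm

end ts

/-- **(V4)** -/
theorem rldP : S_rldP.{u} := by
  intro l r β H M k E _ _ _ _ _ τ D hτ μ hμ G hG hr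
  have hl : l.Prime := Fact.out
  have hl0 := hl.ne_zero
  obtain ⟨σ, hσ⟩ : ∃ σ : E →+* PowerSeries E, σ = tw l r τ := ⟨_, rfl⟩
  obtain ⟨σ', hσ'⟩ : ∃ σ' : E →+* PowerSeries E, σ' = tw l (r + 1) τ := ⟨_, rfl⟩
  rw [← hσ, ← hσ']
  have hσc : ∀ x, PowerSeries.constantCoeff (σ x) = x ^ l ^ r := by
    intro x
    rw [hσ]
    unfold tw
    rw [RingHom.comp_apply, ← PowerSeries.coeff_zero_eq_constantCoeff_apply, PowerSeries.coeff_map,
      iterateFrobenius_def, PowerSeries.coeff_zero_eq_constantCoeff_apply]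
    congr 1
    exact hτ.const x
  have hσl : ∀ z, σ (z ^ l) = PowerSeries.expand l hl0 (σ' z) := by
    intro z
    rw [map_pow, pow_eq_expand _ hl0, hσ, hσ']
    congr 1
    unfold tw
    ext n
    rw [RingHom.comp_apply, RingHom.comp_apply, PowerSeries.coeff_map, PowerSeries.coeff_map,
      PowerSeries.coeff_map, iterateFrobenius_def, iterateFrobenius_def, frobenius_def, ← pow_mul, pow_succ]
  obtain ⟨G1, hG1⟩ : ∃ G1, G1 = nv β H (C μ.α * X + C μ.β) (C μ.γ * X + C μ.δ) (C (σ μ.α) * X + C (σ μ.β))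
    (C (σ μ.γ) * X + C (σ μ.δ)) G := ⟨_, rfl⟩
  have hG1d : Dg β H G1 := by
    rw [hG1]
    exact nv_dg G (nd_lin _ _) (nd_lin _ _) (nd_lin _ _) (nd_lin _ _)
  have hG1r : red G1 ≠ 0 := by
    rw [hG1]
    refine nv_red hG hμ ?_ hr
    rw [← map_mul, ← map_mul, ← map_sub, hσc]
    exact pow_ne_zero _ hμ
  obtain ⟨ex, hex⟩ : ∃ ex : (PowerSeries E)[X] →+* (PowerSeries E)[X],
      ex = ((Polynomial.expand (PowerSeries E) l : (PowerSeries E)[X] →ₐ[PowerSeries E] (PowerSeries E)[X]) :
        (PowerSeries E)[X] →+* (PowerSeries E)[X]) := ⟨_, rfl⟩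
  have hexa : ∀ f, ex f = Polynomial.expand (PowerSeries E) l f := fun f => by rw [hex]; rfl
  obtain ⟨G2, hG2⟩ : ∃ G2, G2 = G1.map ex := ⟨_, rfl⟩
  have hG2e : ∀ z y, G2.evalEval z y = G1.evalEval (z ^ l) y := by
    intro z y
    rw [hG2]
    clear hG1 hG1d hG1r hG2
    induction G1 using Polynomial.induction_on' with
    | add p q h1 h2 => rw [Polynomial.map_add, evalEval_add, h1, h2, evalEval_add]
    | monomial j f =>
      unfold evalEval
      rw [Polynomial.map_monomial, eval_monomial, eval_monomial, eval_mul, eval_mul, hexa, expand_eval,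
        eval_pow, eval_pow, eval_C, eval_C]
  refine ⟨mA (mA (Ts l)) G2, ⟨?_, ?_⟩, ?_, ?_⟩
  · exact (mA_natDegree _ _).trans ((by rw [hG2]; exact natDegree_map_le : G2.natDegree ≤ G1.natDegree).trans hG1d.1)
  · intro i
    rw [mA_coeff]
    refine (mA_natDegree _ _).trans ?_
    rw [hG2, coeff_map, hexa, natDegree_expand, mul_comm]
    exact Nat.mul_le_mul_left l (hG1d.2 i)
  · intro h
    apply hG1r
    have h1 : (red G1).map (Polynomial.expand E l : E[X] →ₐ[E] E[X]).toRingHom = 0 := by
      ext i : 1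
      have h2 := congrArg (fun F : E[X][X] => F.coeff i) h
      simp only [red_coeff, mA_coeff, coeff_zero] at h2
      rw [coeff_map, red_coeff, coeff_zero, ← h2, hG2, coeff_map, hexa]
      ext n
      rw [coeff_map, mA_coeff, Ts_const, ← coeff_map, map_expand]
      rfl
    rw [Polynomial.map_eq_zero_iff] at h1
    · exact h1
    · exact expand_injective hl.pos
  · intro z hz hV
    have e0 : μ.α * z ^ l + μ.β = μ.app (z ^ l) * (μ.γ * z ^ l + μ.δ) := by
      unfold Mb.app
      exact (div_mul_cancel₀ _ hz).symm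
    have e2 : (PowerSeries.X : PowerSeries E) ^ M ∣ G1.evalEval (PowerSeries.C (z ^ l)) (σ (z ^ l)) := by
      rw [hG1, nv_eval (x₁ := μ.app (z ^ l)) (y₁ := σ (μ.app (z ^ l))) hG]
      · exact Dvd.dvd.mul_left hV _
      · simp only [eval_add, eval_mul, eval_C, eval_X]
        exact e0
      · simp only [eval_add, eval_mul, eval_C, eval_X]
        rw [← map_mul, ← map_add, e0, map_mul, map_add, map_mul]
    rw [map_pow PowerSeries.C, ← hG2e] at e2
    have e3 := Ts_dvd (l := l) e2
    have e4 := mA_eval (R := PowerSeries E) (Ts l) (x := PowerSeries.C z) (x' := PowerSeries.C z)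
      (y := PowerSeries.expand l hl0 (σ' z)) (y' := σ' z) (Ts_C l z) (Ts_expand hl0 (σ' z)) G2
    rw [hσl] at e3
    unfold Va
    rw [← e4]
    exact e3

end Pool.Agent.Q129.SP.Rld
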