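import Pool.Agent.Q41.SP.Stm5
import Pool.Agent.Q129.SP.Clo

/-! Project SP (helper41), job V8 (helper129): Vandermonde. -/

set_option autoImplicit false

namespace Pool.Agent.Q129.SP.Vdm

open Finset Polynomial
open Pool.Agent.Q41.SU
open Pool.Agent.Q41.SP
open Pool.Agent.Q129.SP.Clo (nzd)

universe u

/-! ## Powers of a prime in a product -/

theorem prime_prod {R ι : Type*} [CommRing R] [IsDomain R] {p : R} (hp : Prime p) (f : ι → R) (m : ℕ)
    (S : Finset ι) :
    ∀ n, 1 ≤ n → m * S.card ≤ n → p ^ n ∣ ∏ s ∈ S, f s → ∃ s ∈ S, p ^ m ∣ f s := by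
  classical
  induction S using Finset.induction_on with
  | empty =>
    intro n hn _ h
    rw [prod_empty] at h
    exact absurd (isUnit_of_dvd_one ((dvd_pow_self p (by omega)).trans h)) hp.not_isUnit
  | insert s S hs ih =>
    intro n hn hmn h
    rw [card_insert_of_notMem hs] at hmn
    rw [prod_insert hs] at h
    by_cases hd : p ^ m ∣ f s
    · exact ⟨s, mem_insert_self _ _, hd⟩
    · obtain ⟨i, hi1, hi2⟩ : ∃ i, p ^ i ∣ f s ∧ ¬ p ^ (i + 1) ∣ f s := by
        by_contra hcon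
        push Not at hcon
        have h1 : ∀ i, p ^ i ∣ f s := by
          intro i
          induction i with
          | zero => rw [pow_zero]; exact one_dvd _
          | succ i ih2 => exact hcon i ih2
        exact hd (h1 m)
      have him : i < m := by
        by_contra hge
        exact hd ((pow_dvd_pow p (by omega)).trans hi1)
      obtain ⟨c, hc⟩ := hi1
      have hpc : ¬ p ∣ c := by
        rintro ⟨e, he⟩
        apply hi2
        exact ⟨e, by rw [hc, he, pow_succ]; ring⟩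
      have hm' : m * (S.card + 1) = m * S.card + m := by ring
      have h2 : p ^ i * p ^ (n - i) ∣ p ^ i * (c * ∏ s ∈ S, f s) := by
        rw [← pow_add, show i + (n - i) = n by omega, ← mul_assoc, ← hc]
        exact h
      have h3 := (mul_dvd_mul_iff_left (pow_ne_zero i hp.ne_zero)).1 h2
      have h4 := hp.pow_dvd_of_dvd_mul_left (n - i) hpc h3
      obtain ⟨t, ht, ht2⟩ := ih (n - i) (by omega) (by omega) h4
      exact ⟨t, mem_insert_of_mem ht, ht2⟩

/-! ## Values of polynomials with coefficients in the power series -/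

section vals
variable {E : Type u} [Field E]

/-- the coefficients of `δ ^ n` -/
noncomputable def cf (n : ℕ) (f : (PowerSeries E)[X]) : E[X] :=
  ∑ i ∈ range (f.natDegree + 1), monomial i (PowerSeries.coeff n (f.coeff i))

theorem cf_coeff (n : ℕ) (f : (PowerSeries E)[X]) (i : ℕ) :
    (cf n f).coeff i = PowerSeries.coeff n (f.coeff i) := by
  unfold cf
  rw [finsetSum_coeff]
  simp only [coeff_monomial]
  rw [Finset.sum_ite_eq' (range (f.natDegree + 1)) i]
  split_ifs with h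
  · rfl
  · rw [mem_range, not_lt] at h
    rw [coeff_eq_zero_of_natDegree_lt (by omega), map_zero]

theorem cf_eval (n : ℕ) (f : (PowerSeries E)[X]) (x : E) :
    (cf n f).eval x = PowerSeries.coeff n (f.eval (PowerSeries.C x)) := by
  unfold cf
  rw [eval_finsetSum, eval_eq_sum_range, map_sum]
  refine sum_congr rfl fun i _ => ?_
  rw [eval_monomial, ← map_pow, PowerSeries.coeff_mul_C]

/-- many values divisible by a power of `δ` -/
theorem dvd_of_vals {f : (PowerSeries E)[X]} {N L : ℕ} (hN : f.natDegree ≤ N) (T : Finset E)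
    (hT : N < T.card) (h : ∀ x ∈ T, (PowerSeries.X : PowerSeries E) ^ L ∣ f.eval (PowerSeries.C x)) :
    C (PowerSeries.X ^ L) ∣ f := by
  rw [C_dvd_iff_dvd_coeff]
  intro i
  rw [PowerSeries.X_pow_dvd_iff]
  intro m hm
  have h1 : cf m f = 0 := by
    apply eq_zero_of_natDegree_lt_card_of_eval_eq_zero' _ T
    · intro x hx
      rw [cf_eval]
      exact PowerSeries.X_pow_dvd_iff.1 (h x hx) m hm
    · refine lt_of_le_of_lt ?_ hT
      refine le_trans ?_ hN
      rw [natDegree_le_iff_coeff_eq_zero]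
      intro j hj
      rw [cf_coeff, coeff_eq_zero_of_natDegree_lt hj, map_zero]
  rw [← cf_coeff, h1, coeff_zero]

/-! ## The Moebius maps -/

/-- the numerator -/
noncomputable def uu (σ : E →+* PowerSeries E) (q : ℕ) (m : Mb E) : (PowerSeries E)[X] :=
  C (σ m.α) * (C (PowerSeries.C (m.δ ^ q)) * X ^ q - C (PowerSeries.C (m.β ^ q))) +
    C (σ m.β) * (C (PowerSeries.C (m.α ^ q)) - C (PowerSeries.C (m.γ ^ q)) * X ^ q)

/-- the denominator -/
noncomputable def vv (σ : E →+* PowerSeries E) (q : ℕ) (m : Mb E) : (PowerSeries E)[X] :=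
  C (σ m.γ) * (C (PowerSeries.C (m.δ ^ q)) * X ^ q - C (PowerSeries.C (m.β ^ q))) +
    C (σ m.δ) * (C (PowerSeries.C (m.α ^ q)) - C (PowerSeries.C (m.γ ^ q)) * X ^ q)

theorem nd_aux {R : Type*} [CommRing R] (a b c d e f : R) (q : ℕ) :
    (C a * (C b * X ^ q - C c) + C d * (C e - C f * X ^ q)).natDegree ≤ q := by
  refine (natDegree_add_le _ _).trans (max_le ?_ ?_)
  · refine (natDegree_C_mul_le _ _).trans ((natDegree_sub_le _ _).trans (max_le ?_ ?_))
    · exact natDegree_C_mul_X_pow_le _ _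
    · rw [natDegree_C]
      exact Nat.zero_le _
  · refine (natDegree_C_mul_le _ _).trans ((natDegree_sub_le _ _).trans (max_le ?_ ?_))
    · rw [natDegree_C]
      exact Nat.zero_le _
    · exact natDegree_C_mul_X_pow_le _ _

theorem uu_nd (σ : E →+* PowerSeries E) (q : ℕ) (m : Mb E) : (uu σ q m).natDegree ≤ q := nd_aux _ _ _ _ _ _ _

theorem vv_nd (σ : E →+* PowerSeries E) (q : ℕ) (m : Mb E) : (vv σ q m).natDegree ≤ q := nd_aux _ _ _ _ _ _ _

variable {l r : ℕ} [Fact l.Prime] [CharP E l] (σ : E →+* PowerSeries E)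

theorem uu_eval (m : Mb E) (x : E) : (uu σ (l ^ r) m).eval (PowerSeries.C x) =
    σ m.α * PowerSeries.C ((m.δ * x - m.β) ^ l ^ r) + σ m.β * PowerSeries.C ((m.α - m.γ * x) ^ l ^ r) := by
  unfold uu
  simp only [eval_add, eval_mul, eval_sub, eval_C, eval_pow, eval_X]
  rw [sub_pow_char_pow, sub_pow_char_pow, mul_pow, mul_pow]
  simp only [map_sub, map_mul, map_pow]

theorem vv_eval (m : Mb E) (x : E) : (vv σ (l ^ r) m).eval (PowerSeries.C x) =
    σ m.γ * PowerSeries.C ((m.δ * x - m.β) ^ l ^ r) + σ m.δ * PowerSeries.C ((m.α - m.γ * x) ^ l ^ r) := by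
  unfold vv
  simp only [eval_add, eval_mul, eval_sub, eval_C, eval_pow, eval_X]
  rw [sub_pow_char_pow, sub_pow_char_pow, mul_pow, mul_pow]
  simp only [map_sub, map_mul, map_pow]

/-- the main identity -/
theorem key (m : Mb E) {x y : E} (hy : m.δ * x - m.β = y * (m.α - m.γ * x)) :
    σ x * (vv σ (l ^ r) m).eval (PowerSeries.C x) - (uu σ (l ^ r) m).eval (PowerSeries.C x) =
      (σ y - PowerSeries.C (y ^ l ^ r)) * (σ (m.α - m.γ * x) * PowerSeries.C ((m.α - m.γ * x) ^ l ^ r)) := by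
  rw [uu_eval, vv_eval]
  have h1 : σ (m.δ * x - m.β) = σ y * σ (m.α - m.γ * x) := by rw [hy, map_mul]
  have h2 : PowerSeries.C ((m.δ * x - m.β) ^ l ^ r) =
      PowerSeries.C (y ^ l ^ r) * PowerSeries.C ((m.α - m.γ * x) ^ l ^ r) := by
    rw [hy, mul_pow, map_mul]
  have h3 : σ (m.δ * x - m.β) = σ m.δ * σ x - σ m.β := by rw [map_sub, map_mul]
  have h4 : σ (m.α - m.γ * x) = σ m.α - σ m.γ * σ x := by rw [map_sub, map_mul]
  rw [h2, h4]
  rw [h3, h4] at h1
  linear_combination PowerSeries.C ((m.α - m.γ * x) ^ l ^ r) * h1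

theorem vv_unit (hσ : ∀ x, PowerSeries.constantCoeff (σ x) = x ^ l ^ r) (m : Mb E) (hm : m.det ≠ 0) (x : E) :
    IsUnit ((vv σ (l ^ r) m).eval (PowerSeries.C x)) := by
  rw [PowerSeries.isUnit_iff_constantCoeff, vv_eval, map_add, map_mul, map_mul, hσ, hσ,
    PowerSeries.constantCoeff_C, PowerSeries.constantCoeff_C]
  have h1 : m.γ ^ l ^ r * (m.δ * x - m.β) ^ l ^ r + m.δ ^ l ^ r * (m.α - m.γ * x) ^ l ^ r =
      m.det ^ l ^ r := by
    rw [← mul_pow, ← mul_pow, ← add_pow_char_pow]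
    congr 1
    unfold Mb.det
    ring
  rw [h1]
  exact (pow_ne_zero _ hm).isUnit

end vals

/-- divisibility from congruence -/
theorem pow_congr {R : Type*} [CommRing R] {d s u v : R} (h : d ∣ s * v - u) (j : ℕ) :
    d ∣ (s * v) ^ j - u ^ j := h.trans (sub_dvd_pow_sub_pow _ _ j)

/-- **(V8)** -/
theorem vdmP (hlev : S_levP.{u}) : S_vdmP.{u} := by
  intro l β K K₁ r H hl hK
  refine ⟨H + l ^ r * β + 2, ?_⟩
  intro k E _ _ _ _ _ τ D hτ G hG hGr μ T hμ hT hV
  classical
  obtain ⟨σ, hσ⟩ : ∃ σ : E →+* PowerSeries E, σ = tw l r τ := ⟨_, rfl⟩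
  obtain ⟨lev1, -, -⟩ := hlev l r K k E τ D hτ
  obtain ⟨-, lev2, -⟩ := hlev l r K₁ k E τ D hτ
  rw [← hσ] at lev1 lev2 hV
  have hσc : ∀ x, PowerSeries.constantCoeff (σ x) = x ^ l ^ r := by
    intro x
    rw [hσ]
    unfold tw
    rw [RingHom.comp_apply, ← PowerSeries.coeff_zero_eq_constantCoeff_apply, PowerSeries.coeff_map,
      iterateFrobenius_def, PowerSeries.coeff_zero_eq_constantCoeff_apply]
    congr 1
    exact hτ.const x
  have hlK : 1 ≤ l ^ K := Nat.one_le_pow _ _ hl.pos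
  have hKK : l ^ K ≤ l ^ K₁ := by
    refine le_trans ?_ hK
    exact Nat.le_mul_of_pos_left _ (by positivity)
  -- the points of the frames
  have hpt : ∀ a, ∀ x ∈ T a, (PowerSeries.X : PowerSeries E) ^ l ^ K₁ ∣
      σ x * (vv σ (l ^ r) (μ a)).eval (PowerSeries.C x) - (uu σ (l ^ r) (μ a)).eval (PowerSeries.C x) := by
    intro a x hx
    obtain ⟨⟨w, hw1, hw2⟩, -⟩ := hV a x hx
    have h1 : (μ a).app (w ^ l ^ K₁) * (μ a).den (w ^ l ^ K₁) = (μ a).α * w ^ l ^ K₁ + (μ a).β :=
      div_mul_cancel₀ _ hw1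
    rw [← hw2] at h1
    rw [key σ (μ a) (y := w ^ l ^ K₁)]
    · exact (lev2 w).mul_right _
    · unfold Mb.den at h1
      linear_combination h1
  -- the polynomials
  obtain ⟨g, hg⟩ : ∃ g : Fin (β + 1) → (PowerSeries E)[X], g = fun j : Fin (β + 1) => G.coeff j.1 := ⟨_, rfl⟩
  obtain ⟨Mt, hMt⟩ : ∃ Mt, Mt = Matrix.projVandermonde (fun a => uu σ (l ^ r) (μ a))
    (fun a => vv σ (l ^ r) (μ a)) := ⟨_, rfl⟩
  have hG1 : ∀ a, (C (PowerSeries.X ^ l ^ K₁) : (PowerSeries E)[X]) ∣ ∑ j, Mt a j * g j := by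
    intro a
    have hnd : (∑ j, Mt a j * g j).natDegree ≤ H + l ^ r * β := by
      refine natDegree_sum_le_of_forall_le _ _ fun j _ => ?_
      rw [hMt, Matrix.projVandermonde_apply, hg]
      have e1 := natDegree_pow_le_of_le (j : ℕ) (uu_nd σ (l ^ r) (μ a))
      have e2 := natDegree_pow_le_of_le (j.rev : ℕ) (vv_nd σ (l ^ r) (μ a))
      have e3 := hG.2 j
      have e4 : (j : ℕ) + (j.rev : ℕ) = β := by
        rw [Fin.val_rev]
        omega
      have e5 : (j : ℕ) * l ^ r + (j.rev : ℕ) * l ^ r = l ^ r * β := by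
        rw [← add_mul, e4, mul_comm]
      refine natDegree_mul_le.trans ?_
      have e6 := natDegree_mul_le (p := uu σ (l ^ r) (μ a) ^ (j : ℕ)) (q := vv σ (l ^ r) (μ a) ^ (j.rev : ℕ))
      show _ + (G.coeff j).natDegree ≤ _
      omega
    refine dvd_of_vals hnd (T a) (by have := hT a; omega) fun x hx => ?_
    obtain ⟨s, hs⟩ : ∃ s, s = σ x := ⟨_, rfl⟩
    obtain ⟨ux, hux⟩ : ∃ ux, ux = (uu σ (l ^ r) (μ a)).eval (PowerSeries.C x) := ⟨_, rfl⟩
    obtain ⟨vx, hvx⟩ : ∃ vx, vx = (vv σ (l ^ r) (μ a)).eval (PowerSeries.C x) := ⟨_, rfl⟩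
    have h1 := hpt a x hx
    have h2 := (hV a x hx).2
    rw [← hs, ← hux, ← hvx] at h1
    unfold Va at h2
    rw [← hs] at h2
    have h3 : G.evalEval (PowerSeries.C x) s =
        ∑ j : Fin (β + 1), (G.coeff j).eval (PowerSeries.C x) * s ^ (j : ℕ) := by
      unfold evalEval
      rw [eval_eq_sum_range' (Nat.lt_succ_of_le hG.1), eval_finsetSum, ← Fin.sum_univ_eq_sum_range
        (fun j => eval (PowerSeries.C x) (G.coeff j * C s ^ j))]
      refine sum_congr rfl fun j _ => ?_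
      rw [eval_mul, eval_pow, eval_C]
    have h4 : (∑ j, Mt a j * g j).eval (PowerSeries.C x) =
        vx ^ β * G.evalEval (PowerSeries.C x) s -
          ∑ j : Fin (β + 1), ((s * vx) ^ (j : ℕ) - ux ^ (j : ℕ)) *
            ((G.coeff j).eval (PowerSeries.C x) * vx ^ (j.rev : ℕ)) := by
      rw [h3, mul_sum, ← sum_sub_distrib, eval_finsetSum]
      refine sum_congr rfl fun j _ => ?_
      rw [hMt, Matrix.projVandermonde_apply, hg, eval_mul, eval_mul, eval_pow, eval_pow, ← hux, ← hvx]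
      have e4 : (j : ℕ) + (j.rev : ℕ) = β := by
        rw [Fin.val_rev]
        omega
      have e5 : vx ^ β = vx ^ (j : ℕ) * vx ^ (j.rev : ℕ) := by rw [← pow_add, e4]
      rw [e5, mul_pow]
      ring
    rw [h4]
    refine dvd_sub (h2.mul_left _) (dvd_sum fun j _ => ?_)
    exact (pow_congr h1 j).mul_right _
  -- the determinant
  have hdet : (C (PowerSeries.X ^ l ^ K₁) : (PowerSeries E)[X]) ∣ Mt.det := by
    obtain ⟨j, hj⟩ : ∃ j : Fin (β + 1), (g j).map PowerSeries.constantCoeff ≠ 0 := by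
      by_contra hcon
      push Not at hcon
      apply hGr
      ext1 j
      unfold red
      rw [coeff_map, coeff_zero]
      rcases Nat.lt_or_ge j (β + 1) with h | h
      · have := hcon ⟨j, h⟩
        rw [hg] at this
        exact this
      · rw [coeff_eq_zero_of_natDegree_lt (lt_of_le_of_lt hG.1 (by omega)), map_zero]
    refine nzd hj (l ^ K₁) _ ?_
    have h1 : Mt.det * g j = ∑ a, Mt.adjugate j a * ∑ i, Mt a i * g i := by
      have h2 : (Mt.adjugate * Mt).mulVec g j = (Mt.det • (1 : Matrix (Fin (β + 1)) (Fin (β + 1))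
        (PowerSeries E)[X])).mulVec g j := by rw [Matrix.adjugate_mul]
      rw [Matrix.smul_mulVec, Matrix.one_mulVec, ← Matrix.mulVec_mulVec] at h2
      exact h2.symm
    rw [h1]
    exact dvd_sum fun a _ => (hG1 a).mul_left _
  rw [hMt, Matrix.det_projVandermonde, C_pow] at hdet
  have hp : Prime (C (PowerSeries.X : PowerSeries E)) := prime_C_iff.2 PowerSeries.X_prime
  have hK1 : (β + 1) * l ^ K * (β + 1) ≤ l ^ K₁ := by nlinarith
  obtain ⟨a, -, ha⟩ := prime_prod hp _ ((β + 1) * l ^ K) _ (l ^ K₁) (by omega) (by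
    rw [card_univ, Fintype.card_fin]
    exact hK1) hdet
  obtain ⟨b, hb, hab⟩ := prime_prod hp _ (l ^ K) _ ((β + 1) * l ^ K) (by nlinarith) (by
    rw [mul_comm (β + 1)]
    refine Nat.mul_le_mul_left _ ?_
    refine (card_le_univ _).trans ?_
    rw [Fintype.card_fin]) ha
  rw [mem_Ioi] at hb
  refine ⟨a, b, hb, ?_⟩
  -- the point
  obtain ⟨x, hx, hxa⟩ : ∃ x ∈ T b, (μ a).α - (μ a).γ * x ≠ 0 := by
    by_contra hcon
    push Not at hcon
    have h1 : 1 < (T b).card := by
      have := hT b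
      omega
    obtain ⟨x, hx, y, hy, hxy⟩ := one_lt_card.1 h1
    have h2 := hcon x hx
    have h3 := hcon y hy
    have h4 : (μ a).γ * (x - y) = 0 := by linear_combination h3 - h2
    have h5 : (μ a).γ = 0 := (mul_eq_zero.1 h4).resolve_right (sub_ne_zero.2 hxy)
    rw [h5, zero_mul, sub_zero] at h2
    apply hμ a
    unfold Mb.det
    rw [h2, h5]
    ring
  refine ⟨x, hx, ?_⟩
  obtain ⟨y, hy⟩ : ∃ y, y = ((μ a).δ * x - (μ a).β) / ((μ a).α - (μ a).γ * x) := ⟨_, rfl⟩
  have hy1 : (μ a).δ * x - (μ a).β = y * ((μ a).α - (μ a).γ * x) := by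
    rw [hy, div_mul_cancel₀ _ hxa]
  have hd1 : (PowerSeries.X : PowerSeries E) ^ l ^ K ∣
      σ x * (vv σ (l ^ r) (μ a)).eval (PowerSeries.C x) - (uu σ (l ^ r) (μ a)).eval (PowerSeries.C x) := by
    obtain ⟨F, hF⟩ := hab
    have h1 := congrArg (fun f : (PowerSeries E)[X] => f.eval (PowerSeries.C x)) hF
    simp only [eval_sub, eval_mul, eval_pow, eval_C] at h1
    have h2 := (pow_dvd_pow (PowerSeries.X : PowerSeries E) hKK).trans (hpt b x hx)
    rw [← (vv_unit σ hσc (μ b) (hμ b) x).dvd_mul_left (a := (PowerSeries.X : PowerSeries E) ^ l ^ K)]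
    have h3 : (vv σ (l ^ r) (μ b)).eval (PowerSeries.C x) *
        (σ x * (vv σ (l ^ r) (μ a)).eval (PowerSeries.C x) - (uu σ (l ^ r) (μ a)).eval (PowerSeries.C x)) =
        (σ x * (vv σ (l ^ r) (μ b)).eval (PowerSeries.C x) - (uu σ (l ^ r) (μ b)).eval (PowerSeries.C x)) *
          (vv σ (l ^ r) (μ a)).eval (PowerSeries.C x) +
        PowerSeries.X ^ l ^ K * F.eval (PowerSeries.C x) := by
      rw [← h1]
      ring
    rw [h3]
    exact dvd_add (h2.mul_right _) (dvd_mul_right _ _)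
  rw [key σ (μ a) hy1] at hd1
  have hu : IsUnit (σ ((μ a).α - (μ a).γ * x) * PowerSeries.C (((μ a).α - (μ a).γ * x) ^ l ^ r)) := by
    rw [PowerSeries.isUnit_iff_constantCoeff, map_mul, hσc, PowerSeries.constantCoeff_C]
    exact (mul_ne_zero (pow_ne_zero _ hxa) (pow_ne_zero _ hxa)).isUnit
  rw [hu.dvd_mul_right] at hd1
  obtain ⟨w, hw⟩ := lev1 y hd1
  have hden : (μ a).den y * ((μ a).α - (μ a).γ * x) = (μ a).det := by
    unfold Mb.den Mb.det
    linear_combination (-(μ a).γ) * hy1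
  have hden0 : (μ a).den y ≠ 0 := by
    intro h
    rw [h, zero_mul] at hden
    exact hμ a hden.symm
  refine ⟨w, ?_, ?_⟩
  · rw [← hw]
    exact hden0
  · rw [← hw]
    unfold Mb.app
    rw [eq_div_iff hden0]
    unfold Mb.den
    linear_combination hy1

end Pool.Agent.Q129.SP.Vdm
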